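import Pool.Agent.VREV.StatS

open MeasureTheory Set Filter Topology
open scoped RealInnerProductSpace ENNReal

noncomputable section

namespace Pool.Agent.VREV

variable {n : ℕ}

/-- the set of the values of the squared distance on a transversal piece -/
def vals (P : Piece n) : Set ℝ :=
  {v | InjOn (fun t => P.rad t ^ 2 + ‖P.ht t‖ ^ 2) P.dom ∧
    v ∈ (fun t => P.rad t ^ 2 + ‖P.ht t‖ ^ 2) '' P.dom}

/-- the number of the sheets over `|z|² = v` -/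
def cnt (V : ℕ → Piece n) (v : ℝ) : ℝ≥0∞ := ∑' i, (vals (V i)).indicator 1 v

lemma sqf_hasDeriv (P : Piece n) (t : ℝ) : HasDerivAt (fun t => P.rad t ^ 2 + ‖P.ht t‖ ^ 2)
    (2 * P.speed t * (P.rad t * P.cos t + ⟪P.ht t, P.sin t⟫)) t := by
  have h1 : HasDerivAt P.rad (deriv P.rad t) t :=
    (P.rad_C1.differentiable one_ne_zero t).hasDerivAt
  have h2 : HasDerivAt P.ht (deriv P.ht t) t := (P.ht_C1.differentiable one_ne_zero t).hasDerivAt
  have h3 : HasDerivAt (fun t => P.rad t ^ 2 + ‖P.ht t‖ ^ 2)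
      (((2 : ℕ) : ℝ) * P.rad t ^ (2 - 1) * deriv P.rad t + 2 * ⟪P.ht t, deriv P.ht t⟫) t :=
    (h1.pow 2).add (h2.norm_sq)
  suffices e : 2 * P.speed t * (P.rad t * P.cos t + ⟪P.ht t, P.sin t⟫) =
      ((2 : ℕ) : ℝ) * P.rad t ^ (2 - 1) * deriv P.rad t + 2 * ⟪P.ht t, deriv P.ht t⟫ by
    rw [e]; exact h3
  by_cases h : P.speed t = 0
  · have h0 : deriv P.rad t ^ 2 + ‖deriv P.ht t‖ ^ 2 = 0 := by
      rw [Piece.speed, Real.sqrt_eq_zero (by positivity)] at h; exact h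
    have ha : deriv P.rad t = 0 := by nlinarith [_root_.sq_nonneg (deriv P.rad t), _root_.sq_nonneg ‖deriv P.ht t‖]
    have hb : deriv P.ht t = 0 := by
      rw [← norm_eq_zero]; nlinarith [_root_.sq_nonneg (deriv P.rad t), _root_.sq_nonneg ‖deriv P.ht t‖]
    rw [h, ha, hb]; simp
  · rw [Piece.cos, Piece.sin, inner_smul_right]
    field_simp
    ring

lemma vals_meas (P : Piece n) : MeasurableSet (vals P) := by
  by_cases h : InjOn (fun t => P.rad t ^ 2 + ‖P.ht t‖ ^ 2) P.dom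
  · have : vals P = (fun t => P.rad t ^ 2 + ‖P.ht t‖ ^ 2) '' P.dom := by
      ext v; simp only [vals, mem_ofPred_eq, h, true_and]
    rw [this]
    exact P.meas.image_of_measurable_injOn
      ((P.rad_C1.continuous.pow 2).add (P.ht_C1.continuous.norm.pow 2)).measurable h
  · have : vals P = ∅ := by ext v; simp [vals, h]
    rw [this]; exact MeasurableSet.empty

lemma cnt_meas (V : ℕ → Piece n) : Measurable (cnt V) :=
  Measurable.tsum fun i => measurable_one.indicator (vals_meas (V i))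

lemma cnt_nat (V : ℕ → Piece n) (v : ℝ) (h : cnt V v ≠ ∞) : ∃ k : ℕ, cnt V v = k := by
  have h1 : cnt V v = (({i | v ∈ vals (V i)}.encard : ℕ∞) : ℝ≥0∞) := by
    rw [← ENNReal.tsum_set_one, tsum_subtype {i | v ∈ vals (V i)} (fun _ => (1 : ℝ≥0∞)), cnt]
    refine tsum_congr fun i => ?_
    by_cases hi : v ∈ vals (V i) <;> simp [hi]
  rw [h1] at h ⊢
  have h2 : {i | v ∈ vals (V i)}.encard ≠ ⊤ := fun h' => h (by rw [h']; rfl)
  obtain ⟨k, hk⟩ := ENat.ne_top_iff_exists.1 h2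
  exact ⟨k, by rw [← hk]; rfl⟩

/-- the area formula on the profile -/
lemma area (V : ℕ → Piece n) (F : ℝ → ℝ≥0∞) (hF : Measurable F) :
    ∫⁻ q in {q : ℕ × ℝ | q.2 ∈ (V q.1).dom}, ENNReal.ofReal |2 * (V q.1).speed q.2 * kap V q| *
      F (sq V q) ∂((Measure.count : Measure ℕ).prod volume) = ∫⁻ v, F v * cnt V v := by
  have hm : Measurable fun q : ℕ × ℝ => ENNReal.ofReal |2 * (V q.1).speed q.2 * kap V q| *
      F (sq V q) := by
    refine Measurable.mul ?_ (hF.comp (meas_sq V))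
    exact ENNReal.measurable_ofReal.comp
      (((meas_speed V).const_mul 2).mul (meas_kap V)).abs
  rw [← lintegral_indicator (meas_dom V), lintegral_prod _ (hm.indicator (meas_dom V)).aemeasurable,
    lintegral_count]
  have hi : ∀ i, ∫⁻ t, {q : ℕ × ℝ | q.2 ∈ (V q.1).dom}.indicator (fun q : ℕ × ℝ =>
      ENNReal.ofReal |2 * (V q.1).speed q.2 * kap V q| * F (sq V q)) (i, t) =
      ∫⁻ v, F v * (vals (V i)).indicator 1 v := by
    intro i
    have h1 : ∀ t, {q : ℕ × ℝ | q.2 ∈ (V q.1).dom}.indicator (fun q : ℕ × ℝ =>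
        ENNReal.ofReal |2 * (V q.1).speed q.2 * kap V q| * F (sq V q)) (i, t) =
        (V i).dom.indicator (fun t => ENNReal.ofReal |2 * (V i).speed t *
          ((V i).rad t * (V i).cos t + ⟪(V i).ht t, (V i).sin t⟫)| *
          F ((V i).rad t ^ 2 + ‖(V i).ht t‖ ^ 2)) t := by
      intro t
      by_cases ht : t ∈ (V i).dom <;> simp [ht, kap, sq]
    simp_rw [h1]
    rw [lintegral_indicator (V i).meas]
    have h2 : ∀ v, F v * (vals (V i)).indicator (1 : ℝ → ℝ≥0∞) v = (vals (V i)).indicator F v := by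
      intro v; by_cases hv : v ∈ vals (V i) <;> simp [hv]
    simp_rw [h2]
    rw [lintegral_indicator (vals_meas (V i))]
    by_cases hinj : InjOn (fun t => (V i).rad t ^ 2 + ‖(V i).ht t‖ ^ 2) (V i).dom
    · have : vals (V i) = (fun t => (V i).rad t ^ 2 + ‖(V i).ht t‖ ^ 2) '' (V i).dom := by
        ext v; simp only [vals, mem_ofPred_eq, hinj, true_and]
      rw [this, lintegral_image_eq_lintegral_abs_deriv_mul (V i).meas
        (fun t _ => (sqf_hasDeriv (V i) t).hasDerivWithinAt) hinj]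
    · have : vals (V i) = ∅ := by ext v; simp [vals, hinj]
      rw [this]
      have h0 := (V i).cut.resolve_left hinj
      simp only [Measure.restrict_empty, lintegral_zero_measure]
      rw [setLIntegral_congr_fun (V i).meas (g := fun _ => 0), lintegral_zero]
      intro t ht
      have := h0 t ht
      rw [(sqf_hasDeriv (V i) t).deriv] at this
      simp only [this, abs_zero, ENNReal.ofReal_zero, zero_mul]
  simp_rw [hi, cnt, ← ENNReal.tsum_mul_left]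
  have hme : ∀ i, AEMeasurable (fun v => F v * (vals (V i)).indicator (1 : ℝ → ℝ≥0∞) v) volume :=
    fun i => (hF.mul (measurable_one.indicator (vals_meas (V i)))).aemeasurable
  rw [lintegral_tsum hme]

lemma rpow_half (p : ℕ) {U : ℝ} (hU : 0 < U) : U ^ (-(((p : ℝ) + 1) / 2)) = (√U ^ (p + 1))⁻¹ := by
  rw [Real.rpow_neg hU.le, Real.sqrt_eq_rpow, ← Real.rpow_natCast, ← Real.rpow_mul hU.le]
  congr 2; push_cast; ring

/-- first pointwise inequality -/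
lemma ineq_one (p : ℕ) (V : ℕ → Piece n) (q : ℕ × ℝ) (hr : 0 < (V q.1).rad q.2) :
    2 * kap V q ^ 2 * sq V q ^ (-(((p : ℝ) + 1) / 2)) * ((V q.1).rad q.2 ^ p * (V q.1).speed q.2) ≤
      |2 * (V q.1).speed q.2 * kap V q| := by
  have hU : 0 < sq V q := by rw [sq]; positivity
  have hs : 0 ≤ (V q.1).speed q.2 := Real.sqrt_nonneg _
  rw [rpow_half p hU, abs_mul, abs_mul, abs_of_nonneg hs, abs_two]
  set ρ := √(sq V q) with hρ
  have hρ0 : 0 < ρ := Real.sqrt_pos.2 hU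
  have hρ2 : ρ ^ 2 = sq V q := Real.sq_sqrt hU.le
  have h1 : |kap V q| ≤ ρ := Real.abs_le_sqrt (kap_sq_le V q)
  have h2 : (V q.1).rad q.2 ≤ ρ := Real.le_sqrt_of_sq_le (by
    rw [sq]; nlinarith [_root_.sq_nonneg ‖(V q.1).ht q.2‖])
  have h3 : (V q.1).rad q.2 ^ p ≤ ρ ^ p := pow_le_pow_left₀ hr.le h2 p
  have h4 : kap V q ^ 2 * (V q.1).rad q.2 ^ p ≤ |kap V q| * ρ ^ (p + 1) := by
    rw [← sq_abs, pow_succ ρ p]
    have h5 : |kap V q| ^ 2 ≤ |kap V q| * ρ := by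
      rw [_root_.sq]; exact mul_le_mul_of_nonneg_left h1 (abs_nonneg _)
    calc |kap V q| ^ 2 * (V q.1).rad q.2 ^ p ≤ (|kap V q| * ρ) * ρ ^ p :=
          mul_le_mul h5 h3 (pow_nonneg hr.le _) (by positivity)
      _ = _ := by ring
  have h6 : kap V q ^ 2 * (V q.1).rad q.2 ^ p * (ρ ^ (p + 1))⁻¹ ≤ |kap V q| := by
    rw [← div_eq_mul_inv, div_le_iff₀ (by positivity)]; exact h4
  calc _ = 2 * (V q.1).speed q.2 * (kap V q ^ 2 * (V q.1).rad q.2 ^ p * (ρ ^ (p + 1))⁻¹) := by ring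
    _ ≤ _ := mul_le_mul_of_nonneg_left h6 (by positivity)

/-- second pointwise inequality -/
lemma ineq_two (p : ℕ) (V : ℕ → Piece n) (q : ℕ × ℝ) (hr : 0 < (V q.1).rad q.2) {L : ℝ}
    (hL : ‖(V q.1).ht q.2‖ ≤ L * (V q.1).rad q.2) :
    |2 * (V q.1).speed q.2 * kap V q| ≤ (2 * kap V q ^ 2 * sq V q ^ (-(((p : ℝ) + 1) / 2)) +
      2 * (1 + |L|) ^ p * (sq V q ^ (-(((p : ℝ) + 1) / 2)) * (sq V q - kap V q ^ 2) +
        p * (sq V q ^ (-(((p : ℝ) + 1) / 2)) * ‖(V q.1).ht q.2‖ ^ 2))) *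
      ((V q.1).rad q.2 ^ p * (V q.1).speed q.2) := by
  have hU : 0 < sq V q := by rw [sq]; positivity
  have hs : 0 ≤ (V q.1).speed q.2 := Real.sqrt_nonneg _
  rw [rpow_half p hU, abs_mul, abs_mul, abs_of_nonneg hs, abs_two]
  set ρ := √(sq V q) with hρ
  set r := (V q.1).rad q.2
  set y := ‖(V q.1).ht q.2‖ with hy
  set k := |kap V q| with hk
  set s := (V q.1).speed q.2
  have hρ0 : 0 < ρ := Real.sqrt_pos.2 hU
  have hρ2 : ρ ^ 2 = sq V q := Real.sq_sqrt hU.le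
  have hsq : sq V q = r ^ 2 + y ^ 2 := rfl
  have hk2 : kap V q ^ 2 = k ^ 2 := (sq_abs _).symm
  have hkρ : k ≤ ρ := Real.abs_le_sqrt (kap_sq_le V q)
  have hk0 : 0 ≤ k := abs_nonneg _
  have hy0 : 0 ≤ y := norm_nonneg _
  have hyL : y ≤ |L| * r := hL.trans (mul_le_mul_of_nonneg_right (le_abs_self L) hr.le)
  have hρr : ρ ≤ (1 + |L|) * r := by
    rw [hρ]
    refine Real.sqrt_le_iff.2 ⟨by positivity, ?_⟩
    rw [hsq]; nlinarith [abs_nonneg L, mul_nonneg (abs_nonneg L) hr.le]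
  have hCW : ρ ^ p ≤ (1 + |L|) ^ p * r ^ p := by
    rw [← mul_pow]; exact pow_le_pow_left₀ hρ0.le hρr p
  have hrρ : r ≤ ρ := Real.le_sqrt_of_sq_le (by rw [hsq]; nlinarith)
  -- (1 - W) k² ≤ p y², W = (r/ρ)^p
  have hW : (1 - (r / ρ) ^ p) * k ^ 2 ≤ p * y ^ 2 := by
    have hx0 : 0 < r / ρ := div_pos hr hρ0
    have hx1 : r / ρ ≤ 1 := (div_le_one hρ0).2 hrρ
    have hx2 : ((r / ρ) ^ 2) ^ p ≤ (r / ρ) ^ p := by
      refine pow_le_pow_left₀ (by positivity) ?_ p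
      nlinarith
    have hber : 1 + (p : ℝ) * ((r / ρ) ^ 2 - 1) ≤ ((r / ρ) ^ 2) ^ p := by
      have := one_add_mul_le_pow (a := (r / ρ) ^ 2 - 1) (by nlinarith [_root_.sq_nonneg (r / ρ)]) p
      simpa using this
    have h1 : 1 - (r / ρ) ^ p ≤ p * (1 - (r / ρ) ^ 2) := by linarith
    have h2 : 0 ≤ (p : ℝ) * (1 - (r / ρ) ^ 2) := by
      refine mul_nonneg (Nat.cast_nonneg _) ?_; nlinarith
    have h3 : (1 - (r / ρ) ^ p) * k ^ 2 ≤ p * (1 - (r / ρ) ^ 2) * ρ ^ 2 := by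
      calc (1 - (r / ρ) ^ p) * k ^ 2 ≤ (p * (1 - (r / ρ) ^ 2)) * k ^ 2 :=
            mul_le_mul_of_nonneg_right h1 (_root_.sq_nonneg _)
        _ ≤ _ := mul_le_mul_of_nonneg_left (pow_le_pow_left₀ hk0 hkρ 2) h2
    have h4 : (p : ℝ) * (1 - (r / ρ) ^ 2) * ρ ^ 2 = p * y ^ 2 := by
      have : ρ ^ 2 = r ^ 2 + y ^ 2 := hρ2.trans hsq
      field_simp
      rw [this]; ring
    linarith
  -- main inequality
  have hmain : k * ρ ^ (p + 1) ≤ r ^ p * (k ^ 2 + (1 + |L|) ^ p * ((ρ ^ 2 - k ^ 2) + p * y ^ 2)) := by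
    have h1 : (r / ρ) ^ p * ρ ^ p = r ^ p := by rw [div_pow]; field_simp
    have h2 : 0 ≤ (ρ ^ 2 - k ^ 2) + p * y ^ 2 := by
      have : k ^ 2 ≤ ρ ^ 2 := pow_le_pow_left₀ hk0 hkρ 2
      have : 0 ≤ (p : ℝ) * y ^ 2 := by positivity
      linarith
    have h3 : ρ ^ p * ((ρ ^ 2 - k ^ 2) + p * y ^ 2) ≤
        ((1 + |L|) ^ p * r ^ p) * ((ρ ^ 2 - k ^ 2) + p * y ^ 2) :=
      mul_le_mul_of_nonneg_right hCW h2
    have h4 : k * ρ ≤ (r / ρ) ^ p * k ^ 2 + ((ρ ^ 2 - k ^ 2) + p * y ^ 2) := by nlinarith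
    calc k * ρ ^ (p + 1) = (k * ρ) * ρ ^ p := by ring
      _ ≤ ((r / ρ) ^ p * k ^ 2 + ((ρ ^ 2 - k ^ 2) + p * y ^ 2)) * ρ ^ p :=
          mul_le_mul_of_nonneg_right h4 (by positivity)
      _ = ((r / ρ) ^ p * ρ ^ p) * k ^ 2 + ρ ^ p * ((ρ ^ 2 - k ^ 2) + p * y ^ 2) := by ring
      _ ≤ r ^ p * k ^ 2 + ((1 + |L|) ^ p * r ^ p) * ((ρ ^ 2 - k ^ 2) + p * y ^ 2) := by
          rw [h1]; linarith
      _ = _ := by ring
  have hmain' : k ≤ r ^ p * (k ^ 2 + (1 + |L|) ^ p * ((ρ ^ 2 - k ^ 2) + p * y ^ 2)) *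
      (ρ ^ (p + 1))⁻¹ := by
    rw [← div_eq_mul_inv, le_div_iff₀ (by positivity)]; exact hmain
  rw [hk2, ← hρ2]
  calc 2 * s * k ≤ 2 * s * (r ^ p * (k ^ 2 + (1 + |L|) ^ p * ((ρ ^ 2 - k ^ 2) + p * y ^ 2)) *
      (ρ ^ (p + 1))⁻¹) := mul_le_mul_of_nonneg_left hmain' (by positivity)
    _ = _ := by ring

end Pool.Agent.VREV
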