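import Pool.Agent.VREV.Form
import Pool.Agent.VREV.Count

open MeasureTheory Set Filter Topology
open scoped RealInnerProductSpace ENNReal

noncomputable section

namespace Pool.Agent.VREV

variable {n : ℕ}

lemma lin_wt (p : ℕ) (V : ℕ → Piece n) (G : ℕ × ℝ → ℝ≥0∞) (hG : Measurable G) :
    ∫⁻ q, G q ∂(wt p V) = ∫⁻ q in {q : ℕ × ℝ | q.2 ∈ (V q.1).dom},
      ENNReal.ofReal ((V q.1).rad q.2 ^ p * (V q.1).speed q.2) * G q
        ∂((Measure.count : Measure ℕ).prod volume) := by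
  rw [wt, lintegral_withDensity_eq_lintegral_mul _ (meas_dens p V) hG]
  rfl

lemma kap_zero (V : ℕ → Piece n) (q : ℕ × ℝ) (h : (V q.1).speed q.2 = 0) : kap V q = 0 := by
  simp [kap, Piece.cos, Piece.sin, h]

/-- the stationarity in sliced form -/
lemma hS_one (p : ℕ) (V : ℕ → Piece n) {δ b : ℝ} (hb : b < δ ^ 2) (hstat : StationaryIn p V δ)
    (hfin : wt p V {q | sq V q < δ ^ 2} ≠ ∞) (h : ℝ → ℝ) (hc : Continuous h)
    (hsup : ∀ v, v ∉ Icc 0 b → h v = 0) :
    2 * ∫ q, h (sq V q) * kap V q ^ 2 ∂((wt p V).restrict {q | sq V q < δ ^ 2}) =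
      (2 * (((p : ℝ) + 1) / 2)) * ∫ q, (∫ v in Ioi (sq V q), h v)
        ∂((wt p V).restrict {q | sq V q < δ ^ 2}) := by
  have := stat_S p V (c := δ ^ 2) (b := b) (τ := 0) (Cw := 1) le_rfl hb hstat hfin (fun _ => 1)
    contDiff_const (fun _ => zero_le_one) (fun _ _ => le_rfl)
    (Eventually.of_forall fun q _ => by simp) h hc hsup
  simp only [mul_one, add_zero] at this
  rw [this]; ring

lemma mul_rpow_sub {U g β : ℝ} (hU : 0 < U) :
    U ^ (-β - 1) * g + U ^ (-β - 1) * (U - g) = U ^ (-β) := by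
  have : U ^ (-β) = U ^ (-β - 1) * U := by
    rw [← Real.rpow_add_one hU.ne']; congr 1; ring
  rw [this]; ring

/-- the monotonicity formula with the excess -/
lemma mono_excess (p : ℕ) (V : ℕ → Piece n) {δ a b : ℝ} (hb : b < δ ^ 2)
    (hstat : StationaryIn p V δ) (hfin : wt p V {q | sq V q < δ ^ 2} ≠ ∞) (ha : 0 < a)
    (hab : a ≤ b) :
    wt p V {q | sq V q < a} * ENNReal.ofReal (a ^ (-(((p : ℝ) + 1) / 2))) +
      ∫⁻ q in {q | a ≤ sq V q ∧ sq V q < b},
        ENNReal.ofReal (sq V q ^ (-(((p : ℝ) + 1) / 2) - 1) * (sq V q - kap V q ^ 2)) ∂(wt p V) =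
      wt p V {q | sq V q < b} * ENNReal.ofReal (b ^ (-(((p : ℝ) + 1) / 2))) := by
  set β : ℝ := ((p : ℝ) + 1) / 2 with hβ
  have hβ0 : 0 < β := by positivity
  set μ := (wt p V).restrict {q | sq V q < δ ^ 2} with hμ
  have : IsFiniteMeasure μ := ⟨by rw [hμ, Measure.restrict_apply_univ]; exact hfin.lt_top⟩
  have hms : MeasurableSet {q | sq V q < δ ^ 2} := measurableSet_lt (meas_sq V) measurable_const
  have hgi : Integrable (fun q => kap V q ^ 2) μ := by
    refine Integrable.of_bound (C := δ ^ 2) ((meas_kap V).pow_const 2).aestronglyMeasurable ?_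
    filter_upwards [ae_restrict_mem hms] with q hq
    rw [Real.norm_of_nonneg (_root_.sq_nonneg _)]
    exact (kap_sq_le V q).trans (le_of_lt hq)
  have key := mono_formula μ (sq V) (fun q => kap V q ^ 2) (meas_sq V) ((meas_kap V).pow_const 2)
    (fun q => _root_.sq_nonneg _) hgi hβ0 (b₁ := b) (hS_one p V hb hstat hfin) ha hab le_rfl
  have hμs : ∀ v, v ≤ b → μ {q | sq V q < v} = wt p V {q | sq V q < v} := by
    intro v hv
    rw [hμ, Measure.restrict_apply (measurableSet_lt (meas_sq V) measurable_const)]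
    congr 1; ext q
    exact ⟨fun h => h.1, fun h => ⟨h, lt_of_lt_of_le h (hv.trans hb.le)⟩⟩
  have hset : MeasurableSet {q | a ≤ sq V q ∧ sq V q < b} :=
    (measurableSet_le measurable_const (meas_sq V)).inter
      (measurableSet_lt (meas_sq V) measurable_const)
  have hμr : μ.restrict {q | a ≤ sq V q ∧ sq V q < b} =
      (wt p V).restrict {q | a ≤ sq V q ∧ sq V q < b} := by
    rw [hμ, Measure.restrict_restrict hset]
    congr 1; ext q
    exact ⟨fun h => h.1, fun h => ⟨h, h.2.trans hb⟩⟩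
  rw [hμs a hab, hμs b le_rfl, hμr] at key
  have hsplit : ∫⁻ q in {q | a ≤ sq V q ∧ sq V q < b}, ENNReal.ofReal (sq V q ^ (-β)) ∂(wt p V) =
      ∫⁻ q in {q | a ≤ sq V q ∧ sq V q < b},
        ENNReal.ofReal (sq V q ^ (-β - 1) * kap V q ^ 2) ∂(wt p V) +
      ∫⁻ q in {q | a ≤ sq V q ∧ sq V q < b},
        ENNReal.ofReal (sq V q ^ (-β - 1) * (sq V q - kap V q ^ 2)) ∂(wt p V) := by
    have hmA : Measurable fun q => ENNReal.ofReal (sq V q ^ (-β - 1) * kap V q ^ 2) :=
      ENNReal.measurable_ofReal.comp (((meas_sq V).pow_const _).mul ((meas_kap V).pow_const 2))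
    rw [← lintegral_add_left hmA]
    refine setLIntegral_congr_fun hset fun q hq => ?_
    have hU : 0 < sq V q := ha.trans_le hq.1
    rw [← ENNReal.ofReal_add (mul_nonneg (Real.rpow_nonneg hU.le _) (_root_.sq_nonneg _))
      (mul_nonneg (Real.rpow_nonneg hU.le _) (sub_nonneg.2 (kap_sq_le V q))), mul_rpow_sub hU]
  have hX2 : ∫⁻ q in {q | a ≤ sq V q ∧ sq V q < b},
      ENNReal.ofReal (sq V q ^ (-β - 1) * kap V q ^ 2) ∂(wt p V) ≠ ∞ := by
    refine ne_top_of_le_ne_top (b := ENNReal.ofReal (a ^ (-β)) *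
      wt p V {q | a ≤ sq V q ∧ sq V q < b}) ?_ ?_
    · refine ENNReal.mul_ne_top ENNReal.ofReal_ne_top (ne_top_of_le_ne_top hfin ?_)
      exact measure_mono fun q hq => hq.2.trans hb
    · rw [← setLIntegral_const]
      refine setLIntegral_mono' hset fun q hq => ENNReal.ofReal_le_ofReal ?_
      have hU : 0 < sq V q := ha.trans_le hq.1
      calc sq V q ^ (-β - 1) * kap V q ^ 2 ≤ sq V q ^ (-β - 1) * sq V q :=
            mul_le_mul_of_nonneg_left (kap_sq_le V q) (Real.rpow_nonneg hU.le _)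
        _ = sq V q ^ (-β) := by rw [← Real.rpow_add_one hU.ne']; congr 1; ring
        _ ≤ a ^ (-β) := Real.rpow_le_rpow_of_nonpos ha hq.1 (by linarith)
  rw [hsplit, add_comm (∫⁻ q in {q | a ≤ sq V q ∧ sq V q < b},
      ENNReal.ofReal (sq V q ^ (-β - 1) * kap V q ^ 2) ∂(wt p V)), ← add_assoc] at key
  exact (ENNReal.add_left_inj hX2).1 key

lemma slice_wt (p : ℕ) (V : ℕ → Piece n) {δ b : ℝ} (hb : b < δ ^ 2)
    (hstat : StationaryIn p V δ) (hfin : wt p V {q | sq V q < δ ^ 2} ≠ ∞) (F : ℝ → ℝ≥0∞)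
    (hF : Measurable F) :
    ∫⁻ q in {q | sq V q ∈ Ioo 0 b}, F (sq V q) * ENNReal.ofReal (2 * kap V q ^ 2) ∂(wt p V) =
      ∫⁻ v in Ioo 0 b, F v * (ENNReal.ofReal ((p : ℝ) + 1) * wt p V {q | sq V q < v}) := by
  set μ := (wt p V).restrict {q | sq V q < δ ^ 2} with hμ
  have : IsFiniteMeasure μ := ⟨by rw [hμ, Measure.restrict_apply_univ]; exact hfin.lt_top⟩
  have hms : MeasurableSet {q | sq V q < δ ^ 2} := measurableSet_lt (meas_sq V) measurable_const
  have hgi : Integrable (fun q => kap V q ^ 2) μ := by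
    refine Integrable.of_bound (C := δ ^ 2) ((meas_kap V).pow_const 2).aestronglyMeasurable ?_
    filter_upwards [ae_restrict_mem hms] with q hq
    rw [Real.norm_of_nonneg (_root_.sq_nonneg _)]
    exact (kap_sq_le V q).trans (le_of_lt hq)
  have key := slice_eq μ (sq V) (fun q => kap V q ^ 2) (meas_sq V) ((meas_kap V).pow_const 2)
    (fun q => _root_.sq_nonneg _) hgi (α := 2 * (((p : ℝ) + 1) / 2)) (b := b) (by positivity)
    (hS_one p V hb hstat hfin) F hF
  have hset : MeasurableSet {q | sq V q ∈ Ioo 0 b} := meas_sq V measurableSet_Ioo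
  have hμr : μ.restrict {q | sq V q ∈ Ioo 0 b} = (wt p V).restrict {q | sq V q ∈ Ioo 0 b} := by
    rw [hμ, Measure.restrict_restrict hset]
    congr 1; ext q
    exact ⟨fun h => h.1, fun h => ⟨h, h.2.trans hb⟩⟩
  rw [hμr] at key
  rw [key]
  refine setLIntegral_congr_fun measurableSet_Ioo fun v hv => ?_
  have hμs : μ {q | sq V q < v} = wt p V {q | sq V q < v} := by
    rw [hμ, Measure.restrict_apply (measurableSet_lt (meas_sq V) measurable_const)]
    congr 1; ext q
    exact ⟨fun h => h.1, fun h => ⟨h, lt_of_lt_of_le h (hv.2.le.trans hb.le)⟩⟩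
  rw [hμs]; congr 3; ring

lemma meas_wt_lt (p : ℕ) (V : ℕ → Piece n) : Measurable fun v : ℝ => wt p V {q | sq V q < v} := by
  have : Monotone fun v : ℝ => wt p V {q | sq V q < v} := fun v w hvw =>
    measure_mono fun q (hq : sq V q < v) => lt_of_lt_of_le hq hvw
  exact this.measurable

/-- the number of sheets is at least the density -/
lemma theta_le_cnt (p : ℕ) (V : ℕ → Piece n) {δ b : ℝ} (hb : b < δ ^ 2)
    (hstat : StationaryIn p V δ) (hfin : wt p V {q | sq V q < δ ^ 2} ≠ ∞) :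
    ∀ᵐ v ∂(volume.restrict (Ioo 0 b)), ENNReal.ofReal (v ^ (-(((p : ℝ) + 1) / 2))) *
      (ENNReal.ofReal ((p : ℝ) + 1) * wt p V {q | sq V q < v}) ≤ cnt V v := by
  set β : ℝ := ((p : ℝ) + 1) / 2 with hβ
  have hmF : Measurable fun v : ℝ => ENNReal.ofReal (v ^ (-β)) :=
    ENNReal.measurable_ofReal.comp (measurable_id.pow_const _)
  refine ae_le_of_forall_setLIntegral_le_of_sigmaFinite
    (hmF.mul ((meas_wt_lt p V).const_mul _)) fun S hS _ => ?_
  rw [Measure.restrict_restrict hS]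
  have h1 := slice_wt p V hb hstat hfin (S.indicator fun v : ℝ => ENNReal.ofReal (v ^ (-β)))
    (hmF.indicator hS)
  have h2 : ∫⁻ v in S ∩ Ioo 0 b, ENNReal.ofReal (v ^ (-β)) *
      (ENNReal.ofReal ((p : ℝ) + 1) * wt p V {q | sq V q < v}) =
      ∫⁻ v in Ioo 0 b, (S.indicator fun v : ℝ => ENNReal.ofReal (v ^ (-β))) v *
        (ENNReal.ofReal ((p : ℝ) + 1) * wt p V {q | sq V q < v}) := by
    rw [← Measure.restrict_restrict hS, ← lintegral_indicator hS]
    refine lintegral_congr fun v => ?_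
    by_cases hv : v ∈ S <;> simp [hv]
  rw [h2, ← h1]
  have hset : MeasurableSet {q | sq V q ∈ Ioo 0 b} := meas_sq V measurableSet_Ioo
  have h3 := area V ((S ∩ Ioo 0 b).indicator 1)
    (measurable_one.indicator (hS.inter measurableSet_Ioo))
  have h4 : ∫⁻ v in S ∩ Ioo 0 b, cnt V v =
      ∫⁻ v, (S ∩ Ioo 0 b).indicator (1 : ℝ → ℝ≥0∞) v * cnt V v := by
    rw [← lintegral_indicator (hS.inter measurableSet_Ioo)]
    refine lintegral_congr fun v => ?_
    by_cases hv : v ∈ S ∩ Ioo 0 b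
    · rw [indicator_of_mem hv, indicator_of_mem hv]; simp
    · rw [indicator_of_notMem hv, indicator_of_notMem hv]; simp
  rw [h4, ← h3, ← lintegral_indicator hset]
  have hGm : Measurable ({q | sq V q ∈ Ioo 0 b}.indicator fun q =>
      (S.indicator fun v : ℝ => ENNReal.ofReal (v ^ (-β))) (sq V q) *
        ENNReal.ofReal (2 * kap V q ^ 2)) :=
    (((hmF.indicator hS).comp (meas_sq V)).mul (ENNReal.measurable_ofReal.comp
      (((meas_kap V).pow_const 2).const_mul 2))).indicator hset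
  rw [lin_wt p V _ hGm]
  refine setLIntegral_mono' (meas_dom V) fun q hq => ?_
  have hr := (V q.1).pos _ hq
  have hU : 0 < sq V q := by rw [sq]; positivity
  by_cases hm : sq V q ∈ S ∩ Ioo 0 b
  · rw [indicator_of_mem (show q ∈ {q | sq V q ∈ Ioo 0 b} from hm.2), indicator_of_mem hm.1,
      indicator_of_mem hm, Pi.one_apply, mul_one,
      ← ENNReal.ofReal_mul (Real.rpow_nonneg hU.le _), ← ENNReal.ofReal_mul
        (show 0 ≤ (V q.1).rad q.2 ^ p * (V q.1).speed q.2 from
          mul_nonneg (pow_nonneg hr.le _) (Real.sqrt_nonneg _))]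
    refine ENNReal.ofReal_le_ofReal (le_trans (le_of_eq ?_) (ineq_one p V q hr))
    ring
  · have : {q | sq V q ∈ Ioo 0 b}.indicator (fun q =>
        (S.indicator fun v : ℝ => ENNReal.ofReal (v ^ (-β))) (sq V q) *
          ENNReal.ofReal (2 * kap V q ^ 2)) q = 0 := by
      by_cases h' : q ∈ {q | sq V q ∈ Ioo 0 b}
      · rw [indicator_of_mem h']
        have : sq V q ∉ S := fun hs => hm ⟨hs, h'⟩
        rw [indicator_of_notMem this, zero_mul]
      · rw [indicator_of_notMem h']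
    rw [this, mul_zero]; exact zero_le

/-- upper bound for the mean number of sheets -/
lemma cnt_upper (p : ℕ) (V : ℕ → Piece n) {δ b L a : ℝ} (hb : b < δ ^ 2)
    (hstat : StationaryIn p V δ) (hfin : wt p V {q | sq V q < δ ^ 2} ≠ ∞)
    (hcone : ∀ᵐ q ∂(wt p V), sq V q < δ ^ 2 → ‖(V q.1).ht q.2‖ ≤ L * (V q.1).rad q.2)
    (ha : 0 < a) (hab : 2 * a ≤ b) :
    ∫⁻ v in Ico a (2 * a), cnt V v ≤
      (∫⁻ v in Ico a (2 * a), ENNReal.ofReal (v ^ (-(((p : ℝ) + 1) / 2))) *
        (ENNReal.ofReal ((p : ℝ) + 1) * wt p V {q | sq V q < v})) +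
      ENNReal.ofReal (2 * (1 + |L|) ^ p) * (ENNReal.ofReal (2 * a) *
        (∫⁻ q in {q | a ≤ sq V q ∧ sq V q < 2 * a},
          ENNReal.ofReal (sq V q ^ (-(((p : ℝ) + 1) / 2) - 1) * (sq V q - kap V q ^ 2)) ∂(wt p V)) +
        ENNReal.ofReal (p * a ^ (-(((p : ℝ) + 1) / 2))) *
        ∫⁻ q in {q | sq V q < 2 * a}, ENNReal.ofReal (‖(V q.1).ht q.2‖ ^ 2) ∂(wt p V)) := by
  set β : ℝ := ((p : ℝ) + 1) / 2 with hβ
  have hβ0 : 0 < β := by positivity
  have hmF : Measurable fun v : ℝ => ENNReal.ofReal (v ^ (-β)) :=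
    ENNReal.measurable_ofReal.comp (measurable_id.pow_const _)
  have hset : MeasurableSet {q | a ≤ sq V q ∧ sq V q < 2 * a} :=
    (measurableSet_le measurable_const (meas_sq V)).inter
      (measurableSet_lt (meas_sq V) measurable_const)
  have h3 := area V ((Ico a (2 * a)).indicator 1) (measurable_one.indicator measurableSet_Ico)
  have h4 : ∫⁻ v in Ico a (2 * a), cnt V v =
      ∫⁻ v, (Ico a (2 * a)).indicator (1 : ℝ → ℝ≥0∞) v * cnt V v := by
    rw [← lintegral_indicator measurableSet_Ico]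
    refine lintegral_congr fun v => ?_
    by_cases hv : v ∈ Ico a (2 * a)
    · rw [indicator_of_mem hv, indicator_of_mem hv]; simp
    · rw [indicator_of_notMem hv, indicator_of_notMem hv]; simp
  -- the three terms
  have hm1 : Measurable fun q => ENNReal.ofReal (sq V q ^ (-β)) * ENNReal.ofReal (2 * kap V q ^ 2) :=
    (hmF.comp (meas_sq V)).mul (ENNReal.measurable_ofReal.comp
      (((meas_kap V).pow_const 2).const_mul 2))
  have hm2 : Measurable fun q => ENNReal.ofReal (2 * (1 + |L|) ^ p) * (ENNReal.ofReal (2 * a) *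
      ENNReal.ofReal (sq V q ^ (-β - 1) * (sq V q - kap V q ^ 2))) := by
    refine Measurable.const_mul (Measurable.const_mul (ENNReal.measurable_ofReal.comp ?_) _) _
    exact ((meas_sq V).pow_const _).mul ((meas_sq V).sub ((meas_kap V).pow_const 2))
  have hm3 : Measurable fun q : ℕ × ℝ => ENNReal.ofReal (2 * (1 + |L|) ^ p) *
      (ENNReal.ofReal (p * a ^ (-β)) * ENNReal.ofReal (‖(V q.1).ht q.2‖ ^ 2)) := by
    refine Measurable.const_mul (Measurable.const_mul (ENNReal.measurable_ofReal.comp ?_) _) _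
    exact (meas_ht V).norm.pow_const 2
  let G0 : ℕ × ℝ → ℝ≥0∞ := fun q =>
        ENNReal.ofReal (sq V q ^ (-β)) * ENNReal.ofReal (2 * kap V q ^ 2) +
        (ENNReal.ofReal (2 * (1 + |L|) ^ p) * (ENNReal.ofReal (2 * a) *
          ENNReal.ofReal (sq V q ^ (-β - 1) * (sq V q - kap V q ^ 2))) +
        ENNReal.ofReal (2 * (1 + |L|) ^ p) *
          (ENNReal.ofReal (p * a ^ (-β)) * ENNReal.ofReal (‖(V q.1).ht q.2‖ ^ 2)))
  have hG0 : Measurable G0 := hm1.add (hm2.add hm3)
  have hbig : ∫⁻ q in {q : ℕ × ℝ | q.2 ∈ (V q.1).dom},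
      ENNReal.ofReal |2 * (V q.1).speed q.2 * kap V q| *
        (Ico a (2 * a)).indicator (1 : ℝ → ℝ≥0∞) (sq V q)
          ∂((Measure.count : Measure ℕ).prod volume) ≤
      ∫⁻ q, {q | a ≤ sq V q ∧ sq V q < 2 * a}.indicator G0 q ∂(wt p V) := by
    rw [lin_wt p V _ (hG0.indicator hset)]
    have hae : ∀ᵐ q ∂(((Measure.count : Measure ℕ).prod volume).restrict
        {q : ℕ × ℝ | q.2 ∈ (V q.1).dom}), ENNReal.ofReal ((V q.1).rad q.2 ^ p *
          (V q.1).speed q.2) ≠ 0 → (sq V q < δ ^ 2 → ‖(V q.1).ht q.2‖ ≤ L * (V q.1).rad q.2) := by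
      rw [← ae_withDensity_iff (meas_dens p V)]; exact hcone
    refine lintegral_mono_ae ?_
    filter_upwards [hae, ae_restrict_mem (meas_dom V)] with q hq hqd
    have hr := (V q.1).pos _ hqd
    by_cases hs : (V q.1).speed q.2 = 0
    · rw [hs]; simp
    by_cases hm : sq V q ∈ Ico a (2 * a)
    · have hU : 0 < sq V q := ha.trans_le hm.1
      have hs0 : 0 < (V q.1).speed q.2 := lt_of_le_of_ne (Real.sqrt_nonneg _) (Ne.symm hs)
      have hd0 : ENNReal.ofReal ((V q.1).rad q.2 ^ p * (V q.1).speed q.2) ≠ 0 := by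
        rw [ENNReal.ofReal_ne_zero_iff]; positivity
      have hL := hq hd0 (hm.2.trans_le (hab.trans hb.le))
      have hI := ineq_two p V q hr hL
      rw [indicator_of_mem hm, indicator_of_mem (show q ∈ {q | a ≤ sq V q ∧ sq V q < 2 * a} from hm),
        Pi.one_apply, mul_one]
      set D := (V q.1).rad q.2 ^ p * (V q.1).speed q.2 with hD
      have hD0 : 0 ≤ D := by positivity
      have e0 : 0 ≤ sq V q - kap V q ^ 2 := sub_nonneg.2 (kap_sq_le V q)
      have e1 : sq V q ^ (-β) * (sq V q - kap V q ^ 2) ≤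
          2 * a * (sq V q ^ (-β - 1) * (sq V q - kap V q ^ 2)) := by
        have : sq V q ^ (-β) = sq V q * sq V q ^ (-β - 1) := by
          rw [mul_comm, ← Real.rpow_add_one hU.ne']; congr 1; ring
        rw [this, mul_assoc]
        exact mul_le_mul_of_nonneg_right hm.2.le (mul_nonneg (Real.rpow_nonneg hU.le _) e0)
      have e2 : sq V q ^ (-β) ≤ a ^ (-β) := Real.rpow_le_rpow_of_nonpos ha hm.1 (by linarith)
      have hfinal : |2 * (V q.1).speed q.2 * kap V q| ≤
          (sq V q ^ (-β) * (2 * kap V q ^ 2) + (2 * (1 + |L|) ^ p * (2 * a *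
            (sq V q ^ (-β - 1) * (sq V q - kap V q ^ 2))) + 2 * (1 + |L|) ^ p *
            (p * a ^ (-β) * ‖(V q.1).ht q.2‖ ^ 2))) * D := by
        refine hI.trans (mul_le_mul_of_nonneg_right ?_ hD0)
        have e3 : (p : ℝ) * (sq V q ^ (-β) * ‖(V q.1).ht q.2‖ ^ 2) ≤
            p * a ^ (-β) * ‖(V q.1).ht q.2‖ ^ 2 := by
          rw [mul_assoc]
          exact mul_le_mul_of_nonneg_left (mul_le_mul_of_nonneg_right e2 (_root_.sq_nonneg _))
            (Nat.cast_nonneg _)
        have e4 : 0 ≤ 2 * (1 + |L|) ^ p := by positivity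
        have e5 := mul_le_mul_of_nonneg_left (add_le_add e1 e3) e4
        linarith
      refine (ENNReal.ofReal_le_ofReal hfinal).trans (le_of_eq ?_)
      simp only [G0]
      rw [mul_comm (ENNReal.ofReal D)]
      have f1 : 0 ≤ sq V q ^ (-β) := Real.rpow_nonneg hU.le _
      have f2 : 0 ≤ sq V q ^ (-β - 1) * (sq V q - kap V q ^ 2) :=
        mul_nonneg (Real.rpow_nonneg hU.le _) e0
      have f3 : 0 ≤ (p : ℝ) * a ^ (-β) := mul_nonneg (Nat.cast_nonneg _) (Real.rpow_nonneg ha.le _)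
      rw [ENNReal.ofReal_mul' hD0, ENNReal.ofReal_add (by positivity) (by positivity),
        ENNReal.ofReal_add (by positivity) (by positivity), ENNReal.ofReal_mul f1,
        ENNReal.ofReal_mul (p := 2 * (1 + |L|) ^ p) (by positivity),
        ENNReal.ofReal_mul (p := 2 * (1 + |L|) ^ p) (by positivity),
        ENNReal.ofReal_mul (p := 2 * a) (by positivity), ENNReal.ofReal_mul f3]
    · rw [indicator_of_notMem hm, mul_zero]; exact zero_le
  rw [h4, ← h3]
  refine hbig.trans ?_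
  rw [lintegral_indicator hset]
  have hsum : ∫⁻ q in {q | a ≤ sq V q ∧ sq V q < 2 * a}, G0 q ∂(wt p V) =
      (∫⁻ q in {q | a ≤ sq V q ∧ sq V q < 2 * a},
        ENNReal.ofReal (sq V q ^ (-β)) * ENNReal.ofReal (2 * kap V q ^ 2) ∂(wt p V)) +
      ((∫⁻ q in {q | a ≤ sq V q ∧ sq V q < 2 * a}, ENNReal.ofReal (2 * (1 + |L|) ^ p) *
        (ENNReal.ofReal (2 * a) *
          ENNReal.ofReal (sq V q ^ (-β - 1) * (sq V q - kap V q ^ 2))) ∂(wt p V)) +
      ∫⁻ q in {q | a ≤ sq V q ∧ sq V q < 2 * a}, ENNReal.ofReal (2 * (1 + |L|) ^ p) *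
          (ENNReal.ofReal (p * a ^ (-β)) * ENNReal.ofReal (‖(V q.1).ht q.2‖ ^ 2)) ∂(wt p V)) := by
    rw [← lintegral_add_left hm2, ← lintegral_add_left hm1]
  rw [hsum, mul_add]
  refine add_le_add (le_of_eq ?_) (add_le_add (le_of_eq ?_) ?_)
  · have h5 := slice_wt p V hb hstat hfin
      ((Ico a (2 * a)).indicator fun v : ℝ => ENNReal.ofReal (v ^ (-β)))
      (hmF.indicator measurableSet_Ico)
    have h6 : ∫⁻ q in {q | sq V q ∈ Ioo 0 b},
        ((Ico a (2 * a)).indicator fun v : ℝ => ENNReal.ofReal (v ^ (-β))) (sq V q) *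
          ENNReal.ofReal (2 * kap V q ^ 2) ∂(wt p V) =
        ∫⁻ q in {q | a ≤ sq V q ∧ sq V q < 2 * a},
          ENNReal.ofReal (sq V q ^ (-β)) * ENNReal.ofReal (2 * kap V q ^ 2) ∂(wt p V) := by
      have hset' : MeasurableSet {q | sq V q ∈ Ioo 0 b} := meas_sq V measurableSet_Ioo
      rw [← lintegral_indicator hset', ← lintegral_indicator hset]
      refine lintegral_congr fun q => ?_
      by_cases hq : sq V q ∈ Ico a (2 * a)
      · rw [indicator_of_mem (show q ∈ {q | sq V q ∈ Ioo 0 b} from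
          ⟨ha.trans_le hq.1, hq.2.trans_le hab⟩), indicator_of_mem hq,
          indicator_of_mem (show q ∈ {q | a ≤ sq V q ∧ sq V q < 2 * a} from hq)]
      · rw [indicator_of_notMem (show q ∉ {q | a ≤ sq V q ∧ sq V q < 2 * a} from hq)]
        by_cases hq' : q ∈ {q | sq V q ∈ Ioo 0 b}
        · rw [indicator_of_mem hq', indicator_of_notMem hq, zero_mul]
        · rw [indicator_of_notMem hq']
    have h7 : ∫⁻ v in Ioo 0 b, ((Ico a (2 * a)).indicator fun v : ℝ => ENNReal.ofReal (v ^ (-β))) v *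
        (ENNReal.ofReal ((p : ℝ) + 1) * wt p V {q | sq V q < v}) =
        ∫⁻ v in Ico a (2 * a), ENNReal.ofReal (v ^ (-β)) *
          (ENNReal.ofReal ((p : ℝ) + 1) * wt p V {q | sq V q < v}) := by
      rw [← lintegral_indicator measurableSet_Ioo, ← lintegral_indicator measurableSet_Ico]
      refine lintegral_congr fun v => ?_
      by_cases hv : v ∈ Ico a (2 * a)
      · rw [indicator_of_mem (show v ∈ Ioo 0 b from ⟨ha.trans_le hv.1, hv.2.trans_le hab⟩),
          indicator_of_mem hv, indicator_of_mem hv]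
      · rw [indicator_of_notMem hv (f := fun v => ENNReal.ofReal (v ^ (-β)) *
          (ENNReal.ofReal ((p : ℝ) + 1) * wt p V {q | sq V q < v}))]
        by_cases hv' : v ∈ Ioo 0 b
        · rw [indicator_of_mem hv', indicator_of_notMem hv, zero_mul]
        · rw [indicator_of_notMem hv']
    rw [← h6, h5, h7]
  · rw [lintegral_const_mul' _ _ ENNReal.ofReal_ne_top, lintegral_const_mul' _ _ ENNReal.ofReal_ne_top]
  · rw [lintegral_const_mul' _ _ ENNReal.ofReal_ne_top, lintegral_const_mul' _ _ ENNReal.ofReal_ne_top]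
    gcongr
    exact fun hq => hq.2

end Pool.Agent.VREV
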