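import Mathlib

/-!
# Varifolds of revolution
-/

open MeasureTheory Set Filter Topology
open scoped RealInnerProductSpace ENNReal

noncomputable section

namespace Pool.Agent.VREV

/-- The Euclidean space `ℝᵏ`. -/
abbrev H (k : ℕ) := EuclideanSpace ℝ (Fin k)

/-- A piece of a profile: the part with parameters in the measurable set `dom` of a `C¹` curve
`(rad, ht)` in the half space `{(r, y) : r > 0, y ∈ ℝⁿ}`; on `dom` the square of the distance to `0`
is injective or has derivative `0`. -/
structure Piece (n : ℕ) where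
  dom : Set ℝ
  rad : ℝ → ℝ
  ht : ℝ → H n
  meas : MeasurableSet dom
  rad_C1 : ContDiff ℝ 1 rad
  ht_C1 : ContDiff ℝ 1 ht
  pos : ∀ t ∈ dom, 0 < rad t
  cut : InjOn (fun t => rad t ^ 2 + ‖ht t‖ ^ 2) dom ∨
    ∀ t ∈ dom, deriv (fun t => rad t ^ 2 + ‖ht t‖ ^ 2) t = 0

variable {n : ℕ}

/-- The speed of the curve. -/
def Piece.speed (P : Piece n) (t : ℝ) : ℝ := √(deriv P.rad t ^ 2 + ‖deriv P.ht t‖ ^ 2)

/-- The horizontal component of the unit tangent vector of the profile. -/
def Piece.cos (P : Piece n) (t : ℝ) : ℝ := deriv P.rad t / P.speed t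

/-- The vertical component of the unit tangent vector of the profile. -/
def Piece.sin (P : Piece n) (t : ℝ) : H n := (P.speed t)⁻¹ • deriv P.ht t

/-- The square of the distance to `0` of the point with parameter `t` of the piece `i`. -/
def sq (V : ℕ → Piece n) (q : ℕ × ℝ) : ℝ := (V q.1).rad q.2 ^ 2 + ‖(V q.1).ht q.2‖ ^ 2

/-- The weight of the varifold of dimension `p + 1` obtained by rotating the profile, as a measure
on the set of the indices and parameters `(i, t)`, up to the factor area of the unit sphere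
of `ℝᵖ⁺¹`: `r ^ p` times the length of the profile. -/
def wt (p : ℕ) (V : ℕ → Piece n) : Measure (ℕ × ℝ) :=
  ((Measure.count.prod volume).restrict {q | q.2 ∈ (V q.1).dom}).withDensity
    fun q => ENNReal.ofReal ((V q.1).rad q.2 ^ p * (V q.1).speed q.2)

section Divergence

variable {E F : Type} [NormedAddCommGroup E] [InnerProductSpace ℝ E] [NormedAddCommGroup F]
  [InnerProductSpace ℝ F]

/-- `⟨DX(z) (v, w), (v, w)⟩`, with the Euclidean inner product of `E × F`. -/
def quad (X : E × F → E × F) (z : E × F) (v : E) (w : F) : ℝ :=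
  ⟪(fderiv ℝ X z (v, w)).1, v⟫ + ⟪(fderiv ℝ X z (v, w)).2, w⟫

/-- The divergence of `X` at `z` along the space spanned by the vectors of `E` orthogonal to the
unit vector `ω` and by the unit vector `(c ω, s)`; `e` is an orthonormal basis of `E`: the trace of
`DX(z)` over `E`, minus `⟨DX(z) ω, ω⟩`, plus `⟨DX(z) (c ω, s), (c ω, s)⟩`. -/
def divT {ι : Type} [Fintype ι] (e : ι → E) (X : E × F → E × F) (z : E × F) (ω : E) (c : ℝ)
    (s : F) : ℝ :=
  (∑ a, quad X z (e a) 0) - quad X z ω 0 + quad X z (c • ω) s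

/-- `X` is a `C¹` vector field with compact support in the open ball of radius `δ` about `0` of
`E × F`. -/
def IsTest (X : E × F → E × F) (δ : ℝ) : Prop :=
  ContDiff ℝ 1 X ∧ HasCompactSupport X ∧ tsupport X ⊆ {z | ‖z.1‖ ^ 2 + ‖z.2‖ ^ 2 < δ ^ 2}

/-- The integral over the `ω` in the unit sphere of `E`, with the surface measure, of the divergence
at the point `(r ω, y)`. -/
def sphDiv {ι : Type} [Fintype ι] [MeasurableSpace E] (μ : Measure E) (e : ι → E)
    (X : E × F → E × F) (r : ℝ) (y : F) (c : ℝ) (s : F) : ℝ :=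
  ∫ ω : Metric.sphere (0 : E) 1, divT e X (r • (ω : E), y) ω c s ∂μ.toSphere

end Divergence

/-- The varifold is stationary in the open ball of radius `δ` about `0` of `ℝᵖ⁺¹ × ℝⁿ`: for all
`C¹` vector fields with compact support in the ball the integral of the divergence along the tangent
spaces vanishes. The points are `(r ω, y)`, `ω` in the unit sphere, `(r, y)` in the profile. -/
def StationaryIn (p : ℕ) (V : ℕ → Piece n) (δ : ℝ) : Prop :=
  ∀ X : H (p + 1) × H n → H (p + 1) × H n, IsTest X δ →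
    ∫ q, sphDiv volume (fun a => EuclideanSpace.single a 1) X ((V q.1).rad q.2) ((V q.1).ht q.2)
      ((V q.1).cos q.2) ((V q.1).sin q.2) ∂(wt p V) = 0

/-! ### The divergence of a multiple of the position vector -/

lemma quad_smul {p : ℕ} (F : H (p + 1) × H n → ℝ) (F' : H (p + 1) × H n →L[ℝ] ℝ)
    (z : H (p + 1) × H n) (v : H (p + 1)) (w : H n) (hF : HasFDerivAt F F' z) :
    quad (fun z => F z • z) z v w = F z * (‖v‖ ^ 2 + ‖w‖ ^ 2) + F' (v, w) * (⟪z.1, v⟫ + ⟪z.2, w⟫) := by
  have hX : HasFDerivAt (fun z : H (p + 1) × H n => F z • z)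
      (F z • ContinuousLinearMap.id ℝ _ + F'.smulRight z) z :=
    hF.smul (hasFDerivAt_id _)
  rw [quad, hX.fderiv]
  simp only [add_apply, smul_apply,
    ContinuousLinearMap.id_apply, ContinuousLinearMap.smulRight_apply, Prod.fst_add, Prod.snd_add,
    Prod.smul_fst, Prod.smul_snd, inner_add_left, inner_smul_left,
    real_inner_self_eq_norm_sq, conj_trivial]
  ring

lemma divT_smul {p : ℕ} (F : H (p + 1) × H n → ℝ) (F' : H (p + 1) × H n →L[ℝ] ℝ) (r : ℝ)
    (ω : H (p + 1)) (hω : ‖ω‖ = 1) (y : H n) (c : ℝ) (s : H n)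
    (hF : HasFDerivAt F F' (r • ω, y)) :
    divT (fun a => (EuclideanSpace.single a 1 : H (p + 1))) (fun z => F z • z) (r • ω, y) ω c s =
      p * F (r • ω, y) + F (r • ω, y) * (c ^ 2 + ‖s‖ ^ 2) +
        F' (c • ω, s) * (r * c + ⟪y, s⟫) := by
  have hωω : ⟪ω, ω⟫ = (1 : ℝ) := by rw [real_inner_self_eq_norm_sq, hω]; norm_num
  have hsum : ∑ a, F' (EuclideanSpace.single a 1, 0) * ω a = F' (ω, 0) := by
    have h1 : (ω, (0 : H n)) = ∑ a, ω a • ((EuclideanSpace.single a (1 : ℝ) : H (p + 1)), (0 : H n)) := by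
      ext i
      · simp [Prod.fst_sum, Finset.sum_apply, Pi.single_apply]
      · simp [Prod.snd_sum]
    rw [h1, map_sum]
    refine Finset.sum_congr rfl fun a _ => ?_
    rw [map_smul, smul_eq_mul, mul_comm]
  have h3 : ∑ a : Fin (p + 1), F' (EuclideanSpace.single a 1, 0) * (r * ω a) = r * F' (ω, 0) := by
    rw [← hsum, Finset.mul_sum]
    exact Finset.sum_congr rfl fun a _ => by ring
  have h4 : ∀ a : Fin (p + 1), ⟪r • ω, (EuclideanSpace.single a (1 : ℝ) : H (p + 1))⟫ = r * ω a := by
    intro a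
    rw [inner_smul_left, conj_trivial, EuclideanSpace.inner_single_right]
    simp
  rw [divT, quad_smul F F' _ _ _ hF, quad_smul F F' _ _ _ hF]
  simp_rw [quad_smul F F' _ _ _ hF]
  simp only [h4, inner_zero_right, add_zero, Finset.sum_add_distrib, norm_zero]
  rw [h3]
  simp only [inner_smul_left, inner_smul_right, conj_trivial, hωω, hω, norm_smul,
    PiLp.norm_single, Finset.sum_const, Finset.card_univ, Fintype.card_fin, nsmul_eq_mul,
    Real.norm_eq_abs, mul_pow, sq_abs]
  push_cast
  norm_num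
  ring

end Pool.Agent.VREV
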