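import Pool.Agent.VREV.Main

/-!
# Lower bound for the density of the profile at almost every point
-/

open MeasureTheory Set Filter Topology
open scoped RealInnerProductSpace ENNReal

noncomputable section

namespace Pool.Agent.VREV

variable {n : ℕ}

/-- `t` is a density point of the domain of the piece `i` -/
def DP (V : ℕ → Piece n) (i : ℕ) (t : ℝ) : Prop :=
  Tendsto (fun r => volume ((V i).dom ∩ Metric.closedBall t r) /
    volume (Metric.closedBall t r)) (𝓝[>] 0) (𝓝 1)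

/-- almost all points of the weight measure are density points of the domain -/
lemma ae_density (p : ℕ) (V : ℕ → Piece n) : ∀ᵐ q ∂(wt p V), DP V q.1 q.2 := by
  have h1 : ∀ i, volume {t : ℝ | ¬ (t ∈ (V i).dom → DP V i t)} = 0 := by
    intro i
    have h2 := Besicovitch.ae_tendsto_measure_inter_div (volume : Measure ℝ) (V i).dom
    rw [ae_restrict_iff' (V i).meas] at h2
    exact h2
  have key : ∀ᵐ q ∂((Measure.count : Measure ℕ).prod (volume : Measure ℝ)),
      q.2 ∈ (V q.1).dom → DP V q.1 q.2 := by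
    rw [ae_iff]
    refine measure_mono_null (t := ⋃ i : ℕ, {i} ×ˢ {t : ℝ | ¬ (t ∈ (V i).dom → DP V i t)}) ?_ ?_
    · intro q h
      exact mem_iUnion.2 ⟨q.1, rfl, h⟩
    · rw [measure_iUnion_null_iff]
      intro i
      rw [Measure.prod_prod, h1, mul_zero]
  have key2 : ∀ᵐ q ∂(((Measure.count : Measure ℕ).prod (volume : Measure ℝ)).restrict
      {q : ℕ × ℝ | q.2 ∈ (V q.1).dom}), DP V q.1 q.2 :=
    (ae_restrict_iff' (meas_dom V)).2 key
  exact (withDensity_absolutelyContinuous _ _ : wt p V ≪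
    ((Measure.count : Measure ℕ).prod (volume : Measure ℝ)).restrict
      {q : ℕ × ℝ | q.2 ∈ (V q.1).dom}).ae_le key2

lemma speed_cont (P : Piece n) : Continuous P.speed := by
  have h1 : Continuous (deriv P.rad) := P.rad_C1.continuous_deriv le_rfl
  have h2 : Continuous (deriv P.ht) := P.ht_C1.continuous_deriv le_rfl
  unfold Piece.speed
  exact Real.continuous_sqrt.comp ((h1.pow 2).add (h2.norm.pow 2))

/-- near `t₁` the square of the distance of the points of the curve is at most twice the square of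
the speed times the square of the difference of the parameters -/
lemma dist_near (P : Piece n) (t₁ : ℝ) (h : 0 < P.speed t₁) : ∀ᶠ t in 𝓝 t₁,
    (P.rad t - P.rad t₁) ^ 2 + ‖P.ht t - P.ht t₁‖ ^ 2 ≤
      2 * P.speed t₁ ^ 2 * (t - t₁) ^ 2 := by
  have h1 : HasDerivAt P.rad (deriv P.rad t₁) t₁ :=
    ((P.rad_C1.differentiable one_ne_zero) t₁).hasDerivAt
  have h2 : HasDerivAt P.ht (deriv P.ht t₁) t₁ :=
    ((P.ht_C1.differentiable one_ne_zero) t₁).hasDerivAt
  have h3 := h1.tendsto_slope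
  have h4 := h2.tendsto_slope
  have h5 : P.speed t₁ ^ 2 = deriv P.rad t₁ ^ 2 + ‖deriv P.ht t₁‖ ^ 2 :=
    Real.sq_sqrt (by positivity)
  have h6 : Tendsto (fun t => slope P.rad t₁ t ^ 2 + ‖slope P.ht t₁ t‖ ^ 2) (𝓝[≠] t₁)
      (𝓝 (P.speed t₁ ^ 2)) := by
    rw [h5]
    exact (h3.pow 2).add (h4.norm.pow 2)
  have h7 : ∀ᶠ t in 𝓝[≠] t₁, slope P.rad t₁ t ^ 2 + ‖slope P.ht t₁ t‖ ^ 2 <
      2 * P.speed t₁ ^ 2 := by
    apply h6.eventually_lt_const
    nlinarith [pow_pos h 2]
  rw [eventually_nhdsWithin_iff] at h7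
  filter_upwards [h7] with t ht
  by_cases htt : t = t₁
  · subst htt
    simp
  · have h8 := ht htt
    have h9 : t - t₁ ≠ 0 := sub_ne_zero.2 htt
    have h10 : P.rad t - P.rad t₁ = (t - t₁) * slope P.rad t₁ t := by
      rw [slope_def_field]
      field_simp
    have h11 : P.ht t - P.ht t₁ = (t - t₁) • slope P.ht t₁ t := by
      rw [slope_def_module, smul_smul, mul_inv_cancel₀ h9, one_smul]
    rw [h10, h11, norm_smul, mul_pow, mul_pow, Real.norm_eq_abs, sq_abs, ← mul_add]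
    rw [mul_comm]
    exact mul_le_mul_of_nonneg_right h8.le (by positivity)

theorem dens_lower (p : ℕ) (V : ℕ → Piece n) : ∀ᵐ q ∂(wt p V), ∃ s₀ > 0, ∀ s, 0 < s → s < s₀ →
    ENNReal.ofReal (s * (V q.1).rad q.2 ^ p / 4) ≤ wt p V {q' |
      ((V q'.1).rad q'.2 - (V q.1).rad q.2) ^ 2 + ‖(V q'.1).ht q'.2 - (V q.1).ht q.2‖ ^ 2 < s ^ 2} := by
  filter_upwards [ae_good p V, ae_density p V] with q hq hdens
  obtain ⟨i, t₁⟩ := q
  obtain ⟨hdom, hrad, hspeed⟩ := hq
  unfold DP at hdens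
  simp only at hdom hrad hspeed hdens ⊢
  set P := V i with hP
  have hc : 0 < P.speed t₁ := lt_of_le_of_ne (Real.sqrt_nonneg _) (Ne.symm hspeed)
  set c := P.speed t₁ with hcdef
  set ρ := P.rad t₁ with hρ
  have hρp : 0 < ρ ^ p := pow_pos hrad p
  -- the three local conditions
  have e1 := dist_near P t₁ hc
  have e2 : ∀ᶠ t in 𝓝 t₁, 3 / 4 * (ρ ^ p * c) < P.rad t ^ p * P.speed t := by
    have hcont : Continuous fun t => P.rad t ^ p * P.speed t :=
      (P.rad_C1.continuous.pow p).mul (speed_cont P)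
    apply hcont.continuousAt.eventually_const_lt
    have := mul_pos hρp hc
    linarith
  have e3 : ∀ᶠ r in 𝓝[>] (0 : ℝ), (3 / 4 : ℝ≥0∞) <
      volume (P.dom ∩ Metric.closedBall t₁ r) / volume (Metric.closedBall t₁ r) := by
    apply hdens.eventually_const_lt
    rw [ENNReal.div_lt_iff (Or.inl (by norm_num)) (Or.inl (by norm_num))]
    norm_num
  obtain ⟨ε, hε, hball⟩ := Metric.eventually_nhds_iff.1 (e1.and e2)
  obtain ⟨η, hη, hη2⟩ := mem_nhdsGT_iff_exists_Ioo_subset.1 e3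
  refine ⟨min (2 * c * ε) (2 * c * η), lt_min (by positivity) ?_, fun s hs hs0 => ?_⟩
  · have : (0 : ℝ) < η := hη
    positivity
  set r := s / (2 * c) with hr
  have hrp : 0 < r := by positivity
  have hrε : r < ε := by
    rw [hr, div_lt_iff₀ (by positivity)]
    have := hs0.trans_le (min_le_left _ _)
    linarith
  have hrη : r < η := by
    rw [hr, div_lt_iff₀ (by positivity)]
    have := hs0.trans_le (min_le_right _ _)
    linarith
  have hvol : (3 / 4 : ℝ≥0∞) < volume (P.dom ∩ Metric.closedBall t₁ r) /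
      volume (Metric.closedBall t₁ r) := hη2 ⟨hrp, hrη⟩
  set A := P.dom ∩ Metric.closedBall t₁ r with hA
  have hAm : MeasurableSet A := P.meas.inter Metric.isClosed_closedBall.measurableSet
  have hSm : MeasurableSet ({i} ×ˢ A : Set (ℕ × ℝ)) := (measurableSet_singleton i).prod hAm
  -- the set is contained in the ball
  have hsub : ({i} ×ˢ A : Set (ℕ × ℝ)) ⊆ {q' |
      ((V q'.1).rad q'.2 - ρ) ^ 2 + ‖(V q'.1).ht q'.2 - P.ht t₁‖ ^ 2 < s ^ 2} := by
    rintro ⟨j, t⟩ ⟨hj, ht⟩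
    have hj' : j = i := hj
    subst hj'
    have h1 : dist t t₁ ≤ r := ht.2
    have h2 := (hball (lt_of_le_of_lt h1 hrε)).1
    have h3 : (t - t₁) ^ 2 ≤ r ^ 2 := by
      rw [← sq_abs, ← Real.dist_eq]
      exact pow_le_pow_left₀ dist_nonneg h1 2
    have h4 : 2 * c ^ 2 * (t - t₁) ^ 2 ≤ 2 * c ^ 2 * r ^ 2 :=
      mul_le_mul_of_nonneg_left h3 (by positivity)
    have h5 : 2 * c ^ 2 * r ^ 2 = s ^ 2 / 2 := by
      rw [hr, div_pow]
      have : c ≠ 0 := hc.ne'
      field_simp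
    have h6 : 0 < s ^ 2 := by positivity
    change (P.rad t - P.rad t₁) ^ 2 + ‖P.ht t - P.ht t₁‖ ^ 2 < s ^ 2
    linarith
  refine le_trans ?_ (measure_mono hsub)
  -- the measure of the set
  have hD : ({i} ×ˢ A : Set (ℕ × ℝ)) ⊆ {q : ℕ × ℝ | q.2 ∈ (V q.1).dom} := by
    rintro ⟨j, t⟩ ⟨hj, ht⟩
    have hj' : j = i := hj
    subst hj'
    exact ht.1
  have hw : ENNReal.ofReal (3 / 4 * (ρ ^ p * c)) * volume A ≤ wt p V ({i} ×ˢ A) := by
    rw [wt, withDensity_apply _ hSm]
    have h1 : (((Measure.count : Measure ℕ).prod volume).restrict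
        {q : ℕ × ℝ | q.2 ∈ (V q.1).dom}) ({i} ×ˢ A) = volume A := by
      rw [Measure.restrict_apply hSm, inter_eq_left.2 hD, Measure.prod_prod,
        Measure.count_singleton, one_mul]
    rw [← h1, ← setLIntegral_const]
    apply setLIntegral_mono' hSm
    rintro ⟨j, t⟩ ⟨hj, ht⟩
    have hj' : j = i := hj
    subst hj'
    have h2 : dist t t₁ ≤ r := ht.2
    exact ENNReal.ofReal_le_ofReal (hball (lt_of_le_of_lt h2 hrε)).2.le
  refine le_trans ?_ hw
  have hv : ENNReal.ofReal (3 / 2 * r) ≤ volume A := by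
    have h1 : volume (Metric.closedBall t₁ r) = ENNReal.ofReal (2 * r) := Real.volume_closedBall t₁ r
    rw [h1] at hvol
    have h2 : ENNReal.ofReal (2 * r) ≠ 0 := by
      rw [Ne, ENNReal.ofReal_eq_zero, not_le]
      positivity
    rw [ENNReal.lt_div_iff_mul_lt (Or.inl h2) (Or.inl ENNReal.ofReal_ne_top)] at hvol
    refine le_trans (le_of_eq ?_) hvol.le
    have h3 : (3 / 4 : ℝ≥0∞) = ENNReal.ofReal (3 / 4) := by
      rw [ENNReal.ofReal_div_of_pos (by norm_num)]
      norm_num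
    rw [h3, ← ENNReal.ofReal_mul (by norm_num)]
    congr 1
    ring
  calc ENNReal.ofReal (s * ρ ^ p / 4)
      ≤ ENNReal.ofReal (3 / 4 * (ρ ^ p * c) * (3 / 2 * r)) := by
        apply ENNReal.ofReal_le_ofReal
        have h1 : 3 / 4 * (ρ ^ p * c) * (3 / 2 * r) = 9 / 16 * (s * ρ ^ p) := by
          rw [hr]
          field_simp
          ring
        rw [h1]
        have := mul_pos hs hρp
        linarith
    _ = ENNReal.ofReal (3 / 4 * (ρ ^ p * c)) * ENNReal.ofReal (3 / 2 * r) :=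
        ENNReal.ofReal_mul (by positivity)
    _ ≤ ENNReal.ofReal (3 / 4 * (ρ ^ p * c)) * volume A := mul_le_mul_right hv _

end Pool.Agent.VREV
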