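import Pool.Agent.VREV.Slice

open MeasureTheory Set Filter Topology
open scoped RealInnerProductSpace ENNReal

noncomputable section

namespace Pool.Agent.VREV

variable {Ω : Type} [MeasurableSpace Ω]

/-- the monotonicity formula -/
lemma mono_formula (μ : Measure Ω) [IsFiniteMeasure μ] (u g : Ω → ℝ) (hu : Measurable u)
    (hgm : Measurable g) (hg0 : ∀ q, 0 ≤ g q) (hgi : Integrable g μ) {β b₁ : ℝ} (hβ : 0 < β)
    (hS : ∀ h : ℝ → ℝ, Continuous h → (∀ v, v ∉ Icc 0 b₁ → h v = 0) →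
      2 * ∫ q, h (u q) * g q ∂μ = (2 * β) * ∫ q, (∫ v in Ioi (u q), h v) ∂μ)
    {a b : ℝ} (ha : 0 < a) (hab : a ≤ b) (hb : b ≤ b₁) :
    μ {q | u q < a} * ENNReal.ofReal (a ^ (-β)) +
      ∫⁻ q in {q | a ≤ u q ∧ u q < b}, ENNReal.ofReal (u q ^ (-β)) ∂μ =
    μ {q | u q < b} * ENNReal.ofReal (b ^ (-β)) +
      ∫⁻ q in {q | a ≤ u q ∧ u q < b}, ENNReal.ofReal (u q ^ (-β - 1) * g q) ∂μ := by
  rw [fubini_part μ u hu hβ ha hab]
  congr 1
  have hm : Measurable ((Ico a b).indicator fun v : ℝ => ENNReal.ofReal (v ^ (-β - 1))) :=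
    (ENNReal.measurable_ofReal.comp (measurable_id.pow_const _)).indicator measurableSet_Ico
  have key := slice_eq μ u g hu hgm hg0 hgi (α := 2 * β) (b := b₁) (by positivity) hS _ hm
  have hset : {q | a ≤ u q ∧ u q < b} = u ⁻¹' Ico a b := rfl
  have hsub : Ico a b ∩ Ioo 0 b₁ = Ico a b :=
    inter_eq_left.2 fun v hv => ⟨ha.trans_le hv.1, hv.2.trans_le hb⟩
  have e1 : ∫⁻ q in {q | u q ∈ Ioo 0 b₁}, (Ico a b).indicator
      (fun v : ℝ => ENNReal.ofReal (v ^ (-β - 1))) (u q) * ENNReal.ofReal (2 * g q) ∂μ =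
      2 * ∫⁻ q in {q | a ≤ u q ∧ u q < b}, ENNReal.ofReal (u q ^ (-β - 1) * g q) ∂μ := by
    have h1 : ∀ q, (Ico a b).indicator (fun v : ℝ => ENNReal.ofReal (v ^ (-β - 1))) (u q) *
        ENNReal.ofReal (2 * g q) = (u ⁻¹' Ico a b).indicator
          (fun q => 2 * ENNReal.ofReal (u q ^ (-β - 1) * g q)) q := by
      intro q
      by_cases hq : u q ∈ Ico a b
      · rw [indicator_of_mem hq, indicator_of_mem (show q ∈ u ⁻¹' Ico a b from hq),
          ENNReal.ofReal_mul (by norm_num : (0 : ℝ) ≤ 2),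
          ENNReal.ofReal_mul (Real.rpow_nonneg (ha.le.trans hq.1) _)]
        simp only [ENNReal.ofReal_ofNat]
        ring
      · rw [indicator_of_notMem hq, indicator_of_notMem (show q ∉ u ⁻¹' Ico a b from hq), zero_mul]
    simp_rw [h1]
    rw [lintegral_indicator (hu measurableSet_Ico), Measure.restrict_restrict (hu measurableSet_Ico)]
    have h2 : u ⁻¹' Ico a b ∩ {q | u q ∈ Ioo 0 b₁} = u ⁻¹' Ico a b := by
      ext q
      exact ⟨fun h => h.1, fun h => ⟨h, ha.trans_le h.1, h.2.trans_le hb⟩⟩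
    rw [h2, lintegral_const_mul' _ _ (by norm_num), hset]
  have e2 : ∫⁻ v in Ioo 0 b₁, (Ico a b).indicator (fun v : ℝ => ENNReal.ofReal (v ^ (-β - 1))) v *
      (ENNReal.ofReal (2 * β) * μ {q | u q < v}) =
      2 * ∫⁻ v in Ioo a b, ENNReal.ofReal (β * v ^ (-β - 1)) * μ {q | u q < v} := by
    have h1 : ∀ v, (Ico a b).indicator (fun v : ℝ => ENNReal.ofReal (v ^ (-β - 1))) v *
        (ENNReal.ofReal (2 * β) * μ {q | u q < v}) = (Ico a b).indicator
          (fun v => 2 * (ENNReal.ofReal (β * v ^ (-β - 1)) * μ {q | u q < v})) v := by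
      intro v
      by_cases hq : v ∈ Ico a b
      · rw [indicator_of_mem hq, indicator_of_mem hq,
          ENNReal.ofReal_mul (by norm_num : (0 : ℝ) ≤ 2), ENNReal.ofReal_mul hβ.le]
        simp only [ENNReal.ofReal_ofNat]
        ring
      · rw [indicator_of_notMem hq, indicator_of_notMem hq, zero_mul]
    simp_rw [h1]
    rw [lintegral_indicator measurableSet_Ico, Measure.restrict_restrict measurableSet_Ico, hsub,
      lintegral_const_mul' _ _ (by norm_num), setLIntegral_congr Ioo_ae_eq_Ico]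
  rw [e1, e2] at key
  exact ((ENNReal.mul_right_inj (by norm_num) (by norm_num)).1 key).symm

end Pool.Agent.VREV
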