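import Pool.Agent.VREV.Bounds

open MeasureTheory Set Filter Topology
open scoped RealInnerProductSpace ENNReal

noncomputable section

namespace Pool.Agent.VREV

variable {n : ℕ}

/-- the density -/
def Th (p : ℕ) (V : ℕ → Piece n) (v : ℝ) : ℝ≥0∞ :=
  ENNReal.ofReal (v ^ (-(((p : ℝ) + 1) / 2))) *
    (ENNReal.ofReal ((p : ℝ) + 1) * wt p V {q | sq V q < v})

/-- the excess -/
def Ex (p : ℕ) (V : ℕ → Piece n) (a b : ℝ) : ℝ≥0∞ :=
  ∫⁻ q in {q | a ≤ sq V q ∧ sq V q < b},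
    ENNReal.ofReal (sq V q ^ (-(((p : ℝ) + 1) / 2) - 1) * (sq V q - kap V q ^ 2)) ∂(wt p V)

/-- the contact integral -/
def Ct (p : ℕ) (V : ℕ → Piece n) (v : ℝ) : ℝ≥0∞ :=
  ∫⁻ q in {q | sq V q < v}, ENNReal.ofReal (‖(V q.1).ht q.2‖ ^ 2) ∂(wt p V)

lemma Th_meas (p : ℕ) (V : ℕ → Piece n) : Measurable (Th p V) :=
  (ENNReal.measurable_ofReal.comp (measurable_id.pow_const _)).mul ((meas_wt_lt p V).const_mul _)

lemma Th_ne_top (p : ℕ) (V : ℕ → Piece n) {δ v : ℝ} (hfin : wt p V {q | sq V q < δ ^ 2} ≠ ∞)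
    (hv : v ≤ δ ^ 2) : Th p V v ≠ ∞ := by
  refine ENNReal.mul_ne_top ENNReal.ofReal_ne_top (ENNReal.mul_ne_top ENNReal.ofReal_ne_top
    (ne_top_of_le_ne_top hfin (measure_mono fun q hq => lt_of_lt_of_le hq hv)))

lemma Th_add (p : ℕ) (V : ℕ → Piece n) {δ a b : ℝ} (hb : b < δ ^ 2)
    (hstat : StationaryIn p V δ) (hfin : wt p V {q | sq V q < δ ^ 2} ≠ ∞) (ha : 0 < a)
    (hab : a ≤ b) : Th p V a + ENNReal.ofReal ((p : ℝ) + 1) * Ex p V a b = Th p V b := by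
  have h := mono_excess p V hb hstat hfin ha hab
  rw [Th, Th, Ex, mul_left_comm, mul_left_comm (ENNReal.ofReal (b ^ _)), ← mul_add,
    mul_comm (ENNReal.ofReal (a ^ _)), mul_comm (ENNReal.ofReal (b ^ _)), h]

lemma good_radius (p : ℕ) (V : ℕ → Piece n) {δ b L a ε : ℝ} (hb : b < δ ^ 2)
    (hstat : StationaryIn p V δ) (hfin : wt p V {q | sq V q < δ ^ 2} ≠ ∞)
    (hcone : ∀ᵐ q ∂(wt p V), sq V q < δ ^ 2 → ‖(V q.1).ht q.2‖ ≤ L * (V q.1).rad q.2)
    (ha : 0 < a) (hab : 2 * a ≤ b)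
    (hsmall : ENNReal.ofReal (2 * (1 + |L|) ^ p) * (ENNReal.ofReal (2 * a) * Ex p V a (2 * a) +
      ENNReal.ofReal (p * a ^ (-(((p : ℝ) + 1) / 2))) * Ct p V (2 * a)) <
        ENNReal.ofReal ε * ENNReal.ofReal a) :
    ∃ v, a ≤ v ∧ v < 2 * a ∧ Th p V v ≤ cnt V v ∧ cnt V v < Th p V v + ENNReal.ofReal ε := by
  by_contra hcon
  push Not at hcon
  have h1 := theta_le_cnt p V hb hstat hfin
  have h2 : ∀ᵐ v ∂(volume.restrict (Ico a (2 * a))),
      Th p V v + ENNReal.ofReal ε ≤ cnt V v := by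
    have h3 : ∀ᵐ v ∂(volume.restrict (Ico a (2 * a))), Th p V v ≤ cnt V v :=
      ae_mono (Measure.restrict_mono (show Ico a (2 * a) ⊆ Ioo 0 b from
        fun v hv => ⟨ha.trans_le hv.1, hv.2.trans_le hab⟩) le_rfl) h1
    filter_upwards [h3, ae_restrict_mem measurableSet_Ico] with v hv hv'
    exact hcon v hv'.1 hv'.2 hv
  have h4 : ∫⁻ v in Ico a (2 * a), (Th p V v + ENNReal.ofReal ε) ≤
      ∫⁻ v in Ico a (2 * a), cnt V v := lintegral_mono_ae h2
  have h5 := cnt_upper p V hb hstat hfin hcone ha hab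
  rw [lintegral_add_left (Th_meas p V), setLIntegral_const, Real.volume_Ico] at h4
  have h6 : ∫⁻ v in Ico a (2 * a), Th p V v ≠ ∞ := by
    refine ne_top_of_le_ne_top (b := ENNReal.ofReal (a ^ (-(((p : ℝ) + 1) / 2))) *
      (ENNReal.ofReal ((p : ℝ) + 1) * wt p V {q | sq V q < δ ^ 2}) *
      volume (Ico a (2 * a))) ?_ ?_
    · rw [Real.volume_Ico]
      exact ENNReal.mul_ne_top (ENNReal.mul_ne_top ENNReal.ofReal_ne_top
        (ENNReal.mul_ne_top ENNReal.ofReal_ne_top hfin)) ENNReal.ofReal_ne_top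
    · rw [← setLIntegral_const]
      refine setLIntegral_mono' measurableSet_Ico fun v hv => ?_
      refine mul_le_mul' (ENNReal.ofReal_le_ofReal
        (Real.rpow_le_rpow_of_nonpos ha hv.1 (by have : (0:ℝ) ≤ p := Nat.cast_nonneg p; linarith)))
        (mul_le_mul' le_rfl (measure_mono fun q hq => ?_))
      exact lt_trans (lt_of_lt_of_le hq (hv.2.le.trans hab)) hb
  have h7 := h4.trans h5
  have h8 : ENNReal.ofReal ε * ENNReal.ofReal (2 * a - a) ≤ ENNReal.ofReal (2 * (1 + |L|) ^ p) *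
      (ENNReal.ofReal (2 * a) * Ex p V a (2 * a) +
      ENNReal.ofReal (p * a ^ (-(((p : ℝ) + 1) / 2))) * Ct p V (2 * a)) :=
    (ENNReal.add_le_add_iff_left h6).1 h7
  have h9 : 2 * a - a = a := by ring
  rw [h9] at h8
  exact absurd h8 (not_le.2 hsmall)

lemma inner_kap (V : ℕ → Piece n) (q : ℕ × ℝ) (hs : (V q.1).speed q.2 ≠ 0) (hU : 0 < sq V q)
    (hk : kap V q ^ 2 = sq V q) : ⟪(V q.1).ht q.2, (V q.1).sin q.2⟫ * kap V q =
      ‖(V q.1).ht q.2‖ ^ 2 := by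
  have h1 := unit_of_ne _ _ hs
  have hK : kap V q = (V q.1).rad q.2 * (V q.1).cos q.2 + ⟪(V q.1).ht q.2, (V q.1).sin q.2⟫ := rfl
  have hUe : sq V q = (V q.1).rad q.2 ^ 2 + ‖(V q.1).ht q.2‖ ^ 2 := rfl
  set y := (V q.1).ht q.2
  set s := (V q.1).sin q.2
  set r := (V q.1).rad q.2
  set c := (V q.1).cos q.2
  set κ := kap V q
  set U := sq V q
  set t := κ / U with ht
  have e1 : ‖s - t • y‖ ^ 2 = ‖s‖ ^ 2 - 2 * t * ⟪y, s⟫ + t ^ 2 * ‖y‖ ^ 2 := by
    rw [norm_sub_sq_real, inner_smul_right, norm_smul, real_inner_comm, mul_pow, Real.norm_eq_abs,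
      sq_abs]; ring
  have e2 : t * U = κ := by rw [ht]; field_simp
  have e3 : ‖s - t • y‖ ^ 2 + (c - t * r) ^ 2 = 0 := by
    have : ‖s - t • y‖ ^ 2 + (c - t * r) ^ 2 = (c ^ 2 + ‖s‖ ^ 2) - 2 * t * κ + t * (t * U) := by
      rw [e1, hK, hUe]; ring
    rw [this, h1, e2]
    have : t * κ = 1 := by rw [ht, div_mul_eq_mul_div, ← _root_.sq, hk]; field_simp
    linarith
  have e4 : s = t • y := by
    have h5 : ‖s - t • y‖ ^ 2 = 0 := by
      nlinarith [_root_.sq_nonneg ‖s - t • y‖, _root_.sq_nonneg (c - t * r)]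
    rw [pow_eq_zero_iff two_ne_zero, norm_eq_zero, sub_eq_zero] at h5
    exact h5
  rw [e4, inner_smul_right, real_inner_self_eq_norm_sq]
  have : t * κ = 1 := by rw [ht, div_mul_eq_mul_div, ← _root_.sq, hk]; field_simp
  calc t * ‖y‖ ^ 2 * κ = (t * κ) * ‖y‖ ^ 2 := by ring
    _ = _ := by rw [this, one_mul]

/-- the second application of the monotonicity formula -/
lemma second (p : ℕ) (V : ℕ → Piece n) {δ c a b : ℝ} (hc : c ≤ δ ^ 2)
    (hstat : StationaryIn p V δ) (hfin : wt p V {q | sq V q < δ ^ 2} ≠ ∞)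
    (hk : ∀ᵐ q ∂(wt p V), sq V q < c → kap V q ^ 2 = sq V q) (ha : 0 < a) (hab : a ≤ b)
    (hb : b < c) :
    Ct p V a * ENNReal.ofReal (a ^ (-(((p : ℝ) + 3) / 2))) =
      Ct p V b * ENNReal.ofReal (b ^ (-(((p : ℝ) + 3) / 2))) := by
  set β : ℝ := ((p : ℝ) + 3) / 2 with hβ
  have hβ0 : 0 < β := by positivity
  have hms : MeasurableSet {q | sq V q < c} := measurableSet_lt (meas_sq V) measurable_const
  have hfc : wt p V {q | sq V q < c} ≠ ∞ :=
    ne_top_of_le_ne_top hfin (measure_mono fun q hq => lt_of_lt_of_le hq hc)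
  have hym : Measurable fun q : ℕ × ℝ => ENNReal.ofReal (‖(V q.1).ht q.2‖ ^ 2) :=
    ENNReal.measurable_ofReal.comp ((meas_ht V).norm.pow_const 2)
  have hyle : ∀ q, ‖(V q.1).ht q.2‖ ^ 2 ≤ sq V q := fun q => by
    rw [sq]; nlinarith [_root_.sq_nonneg ((V q.1).rad q.2)]
  set μ := (wt p V).restrict {q | sq V q < c} with hμ
  have hμf : IsFiniteMeasure μ := ⟨by rw [hμ, Measure.restrict_apply_univ]; exact hfc.lt_top⟩
  set μ₁ := μ.withDensity fun q => ENNReal.ofReal (‖(V q.1).ht q.2‖ ^ 2) with hμ₁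
  have hyi : Integrable (fun q : ℕ × ℝ => ‖(V q.1).ht q.2‖ ^ 2) μ := by
    refine Integrable.of_bound (C := c) ((meas_ht V).norm.pow_const 2).aestronglyMeasurable ?_
    filter_upwards [ae_restrict_mem hms] with q hq
    rw [Real.norm_of_nonneg (_root_.sq_nonneg _)]
    exact (hyle q).trans (le_of_lt hq)
  have : IsFiniteMeasure μ₁ := isFiniteMeasure_withDensity_ofReal hyi.2
  have hconv : ∀ f : ℕ × ℝ → ℝ, ∫ q, f q ∂μ₁ = ∫ q, f q * ‖(V q.1).ht q.2‖ ^ 2 ∂μ := by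
    intro f
    rw [hμ₁, integral_withDensity_eq_integral_toReal_smul hym
      (Eventually.of_forall fun q => ENNReal.ofReal_lt_top)]
    refine integral_congr_ae (Eventually.of_forall fun q => ?_)
    simp only [smul_eq_mul]
    rw [ENNReal.toReal_ofReal (_root_.sq_nonneg _), mul_comm]
  have hτ : ∀ᵐ q ∂(wt p V), sq V q < c → fderiv ℝ (fun y : H n => ‖y‖ ^ 2) ((V q.1).ht q.2)
      ((V q.1).sin q.2) * kap V q = 2 * ‖(V q.1).ht q.2‖ ^ 2 := by
    filter_upwards [hk, ae_good p V] with q hq hg hqc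
    have hU : 0 < sq V q := by have := hg.2.1; rw [sq]; positivity
    rw [(hasStrictFDerivAt_norm_sq ((V q.1).ht q.2)).hasFDerivAt.fderiv]
    simp only [smul_apply, innerSL_apply_apply, nsmul_eq_mul, Nat.cast_ofNat]
    rw [mul_assoc, inner_kap V q hg.2.2 hU (hq hqc)]
  have hS : ∀ h : ℝ → ℝ, Continuous h → (∀ v, v ∉ Icc 0 b → h v = 0) →
      2 * ∫ q, h (sq V q) * kap V q ^ 2 ∂μ₁ = (2 * β) * ∫ q, (∫ v in Ioi (sq V q), h v) ∂μ₁ := by
    intro h hhc hsup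
    have := stat_S p V (c := c) (b := b) (τ := 2) (Cw := c) hc hb hstat hfc
      (fun y : H n => ‖y‖ ^ 2) (contDiff_norm_sq ℝ) (fun y => _root_.sq_nonneg _)
      (fun q hq => (hyle q).trans (le_of_lt hq)) hτ h hhc hsup
    rw [hconv, hconv]
    have e1 : ∀ q : ℕ × ℝ, h (sq V q) * kap V q ^ 2 * ‖(V q.1).ht q.2‖ ^ 2 =
        h (sq V q) * (kap V q ^ 2 * ‖(V q.1).ht q.2‖ ^ 2) := fun q => mul_assoc _ _ _
    simp_rw [e1]
    rw [this, hβ]; ring
  have hgi : Integrable (fun q => kap V q ^ 2) μ₁ := by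
    refine Integrable.of_bound (C := c) ((meas_kap V).pow_const 2).aestronglyMeasurable ?_
    have : ∀ᵐ q ∂μ₁, sq V q < c := by
      rw [hμ₁, ae_withDensity_iff hym]
      filter_upwards [ae_restrict_mem hms] with q hq _ using hq
    filter_upwards [this] with q hq
    rw [Real.norm_of_nonneg (_root_.sq_nonneg _)]
    exact (kap_sq_le V q).trans (le_of_lt hq)
  have key := mono_formula μ₁ (sq V) (fun q => kap V q ^ 2) (meas_sq V) ((meas_kap V).pow_const 2)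
    (fun q => _root_.sq_nonneg _) hgi hβ0 (b₁ := b) hS ha hab le_rfl
  have hset : MeasurableSet {q | a ≤ sq V q ∧ sq V q < b} :=
    (measurableSet_le measurable_const (meas_sq V)).inter
      (measurableSet_lt (meas_sq V) measurable_const)
  have hae : ∀ᵐ q ∂μ₁, kap V q ^ 2 = sq V q := by
    rw [hμ₁, ae_withDensity_iff hym]
    filter_upwards [ae_restrict_mem hms, ae_restrict_of_ae hk] with q hq hq2 _ using hq2 hq
  have heq : ∫⁻ q in {q | a ≤ sq V q ∧ sq V q < b},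
      ENNReal.ofReal (sq V q ^ (-β - 1) * kap V q ^ 2) ∂μ₁ =
      ∫⁻ q in {q | a ≤ sq V q ∧ sq V q < b}, ENNReal.ofReal (sq V q ^ (-β)) ∂μ₁ := by
    refine lintegral_congr_ae ?_
    filter_upwards [ae_restrict_mem hset, ae_restrict_of_ae hae] with q hq hq2
    rw [hq2, ← Real.rpow_add_one (ha.trans_le hq.1).ne']
    congr 2; ring
  have hCt : ∀ v, v ≤ b → μ₁ {q | sq V q < v} = Ct p V v := by
    intro v hv
    have hsv : MeasurableSet {q | sq V q < v} := measurableSet_lt (meas_sq V) measurable_const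
    rw [hμ₁, withDensity_apply _ hsv, hμ, Measure.restrict_restrict hsv, Ct]
    congr 2; ext q
    exact ⟨fun h => h.1, fun h => ⟨h, lt_of_lt_of_le h (hv.trans hb.le)⟩⟩
  rw [heq, hCt a hab, hCt b le_rfl] at key
  refine (ENNReal.add_left_inj ?_).1 key
  refine ne_top_of_le_ne_top (b := ENNReal.ofReal (a ^ (-β)) *
    μ₁ {q | a ≤ sq V q ∧ sq V q < b}) (ENNReal.mul_ne_top ENNReal.ofReal_ne_top
      (measure_ne_top _ _)) ?_
  rw [← setLIntegral_const]
  exact setLIntegral_mono' hset fun q hq => ENNReal.ofReal_le_ofReal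
    (Real.rpow_le_rpow_of_nonpos ha hq.1 (by linarith))

end Pool.Agent.VREV
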