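import Pool.Agent.VREV.Defs

open MeasureTheory Set Filter Topology
open scoped RealInnerProductSpace ENNReal

noncomputable section

namespace Pool.Agent.VREV

/-- primitive of a power -/
lemma lint_pow {β a b : ℝ} (hβ : 0 < β) (ha : 0 < a) (hab : a ≤ b) :
    ENNReal.ofReal (a ^ (-β)) = ENNReal.ofReal (b ^ (-β)) +
      ∫⁻ v in Ioo a b, ENNReal.ofReal (β * v ^ (-β - 1)) := by
  have h0 : (0 : ℝ) ∉ uIcc a b := by
    rw [uIcc_of_le hab]; exact fun h => absurd h.1 (not_le.2 ha)
  have h1 : ∫ v in a..b, v ^ (-β - 1) = (b ^ (-β - 1 + 1) - a ^ (-β - 1 + 1)) / (-β - 1 + 1) :=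
    integral_rpow (Or.inr ⟨by linarith, h0⟩)
  have h2 : IntervalIntegrable (fun v : ℝ => v ^ (-β - 1)) volume a b :=
    intervalIntegral.intervalIntegrable_rpow (Or.inr h0)
  have h3 : ∫ v in Ioo a b, β * v ^ (-β - 1) = a ^ (-β) - b ^ (-β) := by
    rw [integral_const_mul, ← integral_Ioc_eq_integral_Ioo, ← intervalIntegral.integral_of_le hab,
      h1]
    have : -β - 1 + 1 = -β := by ring
    rw [this]; field_simp; ring
  have h4 : Integrable (fun v : ℝ => β * v ^ (-β - 1)) (volume.restrict (Ioo a b)) := by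
    have := (h2.1.mono_set Ioo_subset_Ioc_self).const_mul β
    exact this
  rw [← ofReal_integral_eq_lintegral_ofReal h4 ((ae_restrict_mem measurableSet_Ioo).mono
    fun v hv => mul_nonneg hβ.le (Real.rpow_nonneg (ha.le.trans hv.1.le) _)), h3,
    ← ENNReal.ofReal_add (Real.rpow_nonneg (ha.le.trans hab) _)
      (sub_nonneg.2 (Real.rpow_le_rpow_of_nonpos ha hab (by linarith)))]
  congr 1; ring

variable {Ω : Type} [MeasurableSpace Ω]

/-- the Fubini part of the monotonicity formula -/
lemma fubini_part (μ : Measure Ω) [SFinite μ] (u : Ω → ℝ) (hu : Measurable u) {β a b : ℝ}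
    (hβ : 0 < β) (ha : 0 < a) (hab : a ≤ b) :
    μ {q | u q < a} * ENNReal.ofReal (a ^ (-β)) +
      ∫⁻ q in {q | a ≤ u q ∧ u q < b}, ENNReal.ofReal (u q ^ (-β)) ∂μ =
    μ {q | u q < b} * ENNReal.ofReal (b ^ (-β)) +
      ∫⁻ v in Ioo a b, ENNReal.ofReal (β * v ^ (-β - 1)) * μ {q | u q < v} := by
  have hm1 : MeasurableSet {q | u q < a} := measurableSet_lt hu measurable_const
  have hmb : MeasurableSet {q | u q < b} := measurableSet_lt hu measurable_const
  have hm2 : MeasurableSet {q | a ≤ u q ∧ u q < b} :=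
    (measurableSet_le measurable_const hu).inter hmb
  have hdisj : Disjoint {q | u q < a} {q | a ≤ u q ∧ u q < b} := by
    rw [Set.disjoint_left]; rintro q hq ⟨h, _⟩; exact absurd hq (not_lt.2 h)
  have hun : {q | u q < a} ∪ {q | a ≤ u q ∧ u q < b} = {q | u q < b} := by
    ext q; simp only [mem_union, mem_ofPred_eq]
    constructor
    · rintro (h | h); exacts [h.trans_le hab, h.2]
    · intro h; by_cases h' : u q < a; exacts [Or.inl h', Or.inr ⟨not_lt.1 h', h⟩]
  have e1 : ∫⁻ q in {q | u q < b}, ENNReal.ofReal ((max (u q) a) ^ (-β)) ∂μ =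
      μ {q | u q < a} * ENNReal.ofReal (a ^ (-β)) +
      ∫⁻ q in {q | a ≤ u q ∧ u q < b}, ENNReal.ofReal (u q ^ (-β)) ∂μ := by
    rw [← hun, lintegral_union hm2 hdisj]
    congr 1
    · rw [setLIntegral_congr_fun hm1 (g := fun _ => ENNReal.ofReal (a ^ (-β)))
        (fun q hq => by rw [max_eq_right (le_of_lt hq)]), setLIntegral_const, mul_comm]
    · exact setLIntegral_congr_fun hm2 (fun q hq => by rw [max_eq_left hq.1])
  rw [← e1]
  have e2 : ∫⁻ q in {q | u q < b}, ENNReal.ofReal ((max (u q) a) ^ (-β)) ∂μ =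
      ∫⁻ q in {q | u q < b}, (ENNReal.ofReal (b ^ (-β)) +
        ∫⁻ v in Ioo a b, ENNReal.ofReal (β * v ^ (-β - 1)) * (Ioi (u q)).indicator 1 v) ∂μ := by
    refine setLIntegral_congr_fun hmb fun q hq => ?_
    have hq' : max (u q) a ≤ b := max_le (le_of_lt hq) hab
    have hpos : 0 < max (u q) a := lt_max_of_lt_right ha
    show ENNReal.ofReal _ = _ + _
    rw [lint_pow hβ hpos hq']
    congr 1
    have : ∀ v, ENNReal.ofReal (β * v ^ (-β - 1)) * (Ioi (u q)).indicator (1 : ℝ → ℝ≥0∞) v =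
        (Ioi (u q)).indicator (fun v => ENNReal.ofReal (β * v ^ (-β - 1))) v := by
      intro v; by_cases hv : v ∈ Ioi (u q) <;> simp [hv]
    simp_rw [this]
    rw [lintegral_indicator measurableSet_Ioi, Measure.restrict_restrict measurableSet_Ioi]
    congr 2
    ext v; simp only [mem_inter_iff, mem_Ioi, mem_Ioo, max_lt_iff]; tauto
  rw [e2, lintegral_add_left measurable_const, setLIntegral_const, mul_comm]
  congr 1
  have hmeas : Measurable (fun x : Ω × ℝ => ENNReal.ofReal (β * x.2 ^ (-β - 1)) *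
      (Ioi (u x.1)).indicator (1 : ℝ → ℝ≥0∞) x.2) := by
    have hs : MeasurableSet {x : Ω × ℝ | u x.1 < x.2} :=
      measurableSet_lt (hu.comp measurable_fst) measurable_snd
    have he : (fun x : Ω × ℝ => (Ioi (u x.1)).indicator (1 : ℝ → ℝ≥0∞) x.2) =
        {x : Ω × ℝ | u x.1 < x.2}.indicator 1 := by
      ext x; by_cases hx : u x.1 < x.2 <;> simp [hx]
    refine Measurable.mul ?_ ?_
    · exact ENNReal.measurable_ofReal.comp ((measurable_snd.pow_const _).const_mul _)
    · rw [he]; exact measurable_one.indicator hs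
  rw [lintegral_lintegral_swap (μ := μ.restrict _) (ν := volume.restrict _)
    (f := fun q v => ENNReal.ofReal (β * v ^ (-β - 1)) * (Ioi (u q)).indicator 1 v)
    hmeas.aemeasurable]
  refine setLIntegral_congr_fun measurableSet_Ioo fun v hv => ?_
  show ∫⁻ q in {q | u q < b}, _ ∂μ = _
  rw [lintegral_const_mul _ (by
    have hs : MeasurableSet {q : Ω | u q < v} := measurableSet_lt hu measurable_const
    have he : (fun q : Ω => (Ioi (u q)).indicator (1 : ℝ → ℝ≥0∞) v) = {q | u q < v}.indicator 1 := by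
      ext q; by_cases hx : u q < v <;> simp [hx]
    rw [he]; exact measurable_one.indicator hs)]
  congr 1
  have hs : MeasurableSet {q : Ω | u q < v} := measurableSet_lt hu measurable_const
  have he : (fun q : Ω => (Ioi (u q)).indicator (1 : ℝ → ℝ≥0∞) v) = {q | u q < v}.indicator 1 := by
    ext q; by_cases hx : u q < v <;> simp [hx]
  rw [he, lintegral_indicator_one hs, Measure.restrict_apply hs]
  congr 1
  ext q; simp only [mem_inter_iff, mem_ofPred_eq]
  exact ⟨fun h => h.1, fun h => ⟨h, h.trans hv.2⟩⟩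

end Pool.Agent.VREV
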