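import Pool.Agent.VREV.Defs

open MeasureTheory Set Filter Topology
open scoped RealInnerProductSpace ENNReal

noncomputable section

namespace Pool.Agent.VREV

variable {n : ℕ}

/-- the inner product of the position and the unit tangent vector -/
def kap (V : ℕ → Piece n) (q : ℕ × ℝ) : ℝ :=
  (V q.1).rad q.2 * (V q.1).cos q.2 + ⟪(V q.1).ht q.2, (V q.1).sin q.2⟫

lemma meas_of {β : Type} [MeasurableSpace β] (f : ℕ × ℝ → β) (h : ∀ i, Measurable fun t => f (i, t)) :
    Measurable f := measurable_from_prod_countable_right h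

lemma meas_rad (V : ℕ → Piece n) : Measurable fun q : ℕ × ℝ => (V q.1).rad q.2 :=
  meas_of _ fun i => (V i).rad_C1.continuous.measurable

lemma meas_ht (V : ℕ → Piece n) : Measurable fun q : ℕ × ℝ => (V q.1).ht q.2 :=
  meas_of _ fun i => (V i).ht_C1.continuous.measurable

lemma meas_drad (V : ℕ → Piece n) : Measurable fun q : ℕ × ℝ => deriv (V q.1).rad q.2 :=
  meas_of _ fun i => show Measurable (deriv (V i).rad) from measurable_deriv _

lemma meas_dht (V : ℕ → Piece n) : Measurable fun q : ℕ × ℝ => deriv (V q.1).ht q.2 :=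
  meas_of _ fun i => show Measurable (deriv (V i).ht) from measurable_deriv _

lemma meas_speed (V : ℕ → Piece n) : Measurable fun q : ℕ × ℝ => (V q.1).speed q.2 := by
  unfold Piece.speed
  exact (((meas_drad V).pow_const 2).add ((meas_dht V).norm.pow_const 2)).sqrt

lemma meas_cos (V : ℕ → Piece n) : Measurable fun q : ℕ × ℝ => (V q.1).cos q.2 :=
  (meas_drad V).div (meas_speed V)

lemma meas_sin (V : ℕ → Piece n) : Measurable fun q : ℕ × ℝ => (V q.1).sin q.2 :=
  (meas_speed V).inv.smul (meas_dht V)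

lemma meas_sq (V : ℕ → Piece n) : Measurable (sq V) :=
  ((meas_rad V).pow_const 2).add ((meas_ht V).norm.pow_const 2)

lemma meas_kap (V : ℕ → Piece n) : Measurable (kap V) :=
  ((meas_rad V).mul (meas_cos V)).add ((meas_ht V).inner (meas_sin V))

lemma meas_dens (p : ℕ) (V : ℕ → Piece n) : Measurable fun q : ℕ × ℝ =>
    ENNReal.ofReal ((V q.1).rad q.2 ^ p * (V q.1).speed q.2) :=
  ENNReal.measurable_ofReal.comp (((meas_rad V).pow_const p).mul (meas_speed V))

lemma meas_dom (V : ℕ → Piece n) : MeasurableSet {q : ℕ × ℝ | q.2 ∈ (V q.1).dom} := by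
  have : {q : ℕ × ℝ | q.2 ∈ (V q.1).dom} = ⋃ i, Prod.mk i '' (V i).dom := by
    ext ⟨i, t⟩; simp
  rw [this]
  refine MeasurableSet.iUnion fun i => ?_
  exact (measurableEmbedding_prodMk_left i).measurableSet_image.2 (V i).meas

lemma unit_of_ne (P : Piece n) (t : ℝ) (h : P.speed t ≠ 0) : P.cos t ^ 2 + ‖P.sin t‖ ^ 2 = 1 := by
  have h0 : 0 ≤ P.speed t := Real.sqrt_nonneg _
  have h1 : P.speed t ^ 2 = deriv P.rad t ^ 2 + ‖deriv P.ht t‖ ^ 2 :=
    Real.sq_sqrt (by positivity)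
  rw [Piece.cos, Piece.sin, norm_smul, norm_inv, Real.norm_of_nonneg h0, div_pow, mul_pow, inv_pow]
  field_simp
  rw [h1]

/-- almost all points of the weight measure are good -/
lemma ae_good (p : ℕ) (V : ℕ → Piece n) : ∀ᵐ q ∂(wt p V), q.2 ∈ (V q.1).dom ∧
    0 < (V q.1).rad q.2 ∧ (V q.1).speed q.2 ≠ 0 := by
  rw [wt, ae_withDensity_iff (meas_dens p V)]
  refine (ae_restrict_mem (meas_dom V)).mono fun q hq h => ⟨hq, (V q.1).pos _ hq, fun h0 => h ?_⟩
  rw [h0, mul_zero, ENNReal.ofReal_zero]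

lemma kap_sq_le (V : ℕ → Piece n) (q : ℕ × ℝ) : kap V q ^ 2 ≤ sq V q := by
  by_cases h : (V q.1).speed q.2 = 0
  · have : kap V q = 0 := by simp [kap, Piece.cos, Piece.sin, h]
    have h' : 0 ≤ sq V q := by rw [sq]; positivity
    rw [this]; simpa using h'
  · have h1 := unit_of_ne _ _ h
    have h2 := real_inner_mul_inner_self_le ((V q.1).ht q.2) ((V q.1).sin q.2)
    rw [real_inner_self_eq_norm_sq, real_inner_self_eq_norm_sq] at h2
    rw [kap, sq]
    set r := (V q.1).rad q.2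
    set c := (V q.1).cos q.2
    set y := ‖(V q.1).ht q.2‖
    set s := ‖(V q.1).sin q.2‖
    set e := ⟪(V q.1).ht q.2, (V q.1).sin q.2⟫
    have h3 : e ^ 2 ≤ y ^ 2 * s ^ 2 := by nlinarith
    have hy : 0 ≤ y := norm_nonneg _
    have hs : 0 ≤ s := norm_nonneg _
    have h4 : |e| ≤ y * s := by
      apply abs_le_of_sq_le_sq _ (by positivity)
      rw [mul_pow]; exact h3
    have h5 : |r * c + e| ≤ |r| * |c| + y * s := by
      refine (abs_add_le _ _).trans ?_
      rw [abs_mul]; gcongr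
    have h6 : (r * c + e) ^ 2 ≤ (|r| * |c| + y * s) ^ 2 := by
      rw [← sq_abs (r * c + e)]
      exact pow_le_pow_left₀ (abs_nonneg _) h5 2
    have h7 : (|r| * |c| + y * s) ^ 2 ≤ (|r| ^ 2 + y ^ 2) * (|c| ^ 2 + s ^ 2) := by
      nlinarith [_root_.sq_nonneg (|r| * s - y * |c|)]
    rw [sq_abs, sq_abs, h1, mul_one] at h7
    exact h6.trans h7

lemma stat_weight (p : ℕ) (V : ℕ → Piece n) {δ b : ℝ} (hb : b < δ ^ 2)
    (hstat : StationaryIn p V δ) (w : H n → ℝ) (hw : ContDiff ℝ 1 w) (φ h : ℝ → ℝ)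
    (hc : Continuous h) (hφ : ∀ v, HasDerivAt φ (h v) v) (h0 : ∀ v, b ≤ v → φ v = 0) :
    ∫ q, ((p + 1) * (φ (sq V q) * w ((V q.1).ht q.2)) +
      2 * (h (sq V q) * (kap V q ^ 2 * w ((V q.1).ht q.2))) +
      φ (sq V q) * (fderiv ℝ w ((V q.1).ht q.2) ((V q.1).sin q.2) * kap V q)) ∂(wt p V) = 0 := by
  have hφc : ContDiff ℝ 1 φ := by
    rw [contDiff_one_iff_deriv]
    refine ⟨fun v => (hφ v).differentiableAt, ?_⟩
    have : deriv φ = h := funext fun v => (hφ v).deriv
    rw [this]; exact hc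
  have hQc : ContDiff ℝ 1 (fun z : H (p + 1) × H n => ‖z.1‖ ^ 2 + ‖z.2‖ ^ 2) :=
    (contDiff_fst.norm_sq ℝ).add (contDiff_snd.norm_sq ℝ)
  let F : H (p + 1) × H n → ℝ := fun z => φ (‖z.1‖ ^ 2 + ‖z.2‖ ^ 2) * w z.2
  have hFc : ContDiff ℝ 1 F := (hφc.comp hQc).mul (hw.comp contDiff_snd)
  have hXc : ContDiff ℝ 1 (fun z => F z • z) := hFc.smul contDiff_id
  have hclosed : IsClosed {z : H (p + 1) × H n | ‖z.1‖ ^ 2 + ‖z.2‖ ^ 2 ≤ b} :=
    isClosed_le hQc.continuous continuous_const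
  have hsupp : Function.support (fun z : H (p + 1) × H n => F z • z) ⊆
      {z | ‖z.1‖ ^ 2 + ‖z.2‖ ^ 2 ≤ b} := by
    intro z hz
    by_contra hz'
    simp only [mem_ofPred_eq, not_le] at hz'
    exact hz (by simp [F, h0 _ hz'.le])
  have hbdd : {z : H (p + 1) × H n | ‖z.1‖ ^ 2 + ‖z.2‖ ^ 2 ≤ b} ⊆
      Metric.closedBall 0 (√b) := by
    intro z hz
    simp only [mem_ofPred_eq] at hz
    rw [mem_closedBall_zero_iff, Prod.norm_def, max_le_iff]
    constructor
    · exact Real.le_sqrt_of_sq_le (by nlinarith [_root_.sq_nonneg ‖z.2‖])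
    · exact Real.le_sqrt_of_sq_le (by nlinarith [_root_.sq_nonneg ‖z.1‖])
  have hcomp : IsCompact {z : H (p + 1) × H n | ‖z.1‖ ^ 2 + ‖z.2‖ ^ 2 ≤ b} :=
    (isCompact_closedBall 0 _).of_isClosed_subset hclosed hbdd
  have hcs : HasCompactSupport (fun z : H (p + 1) × H n => F z • z) :=
    HasCompactSupport.of_support_subset_isCompact hcomp hsupp
  have hts : tsupport (fun z : H (p + 1) × H n => F z • z) ⊆
      {z | ‖z.1‖ ^ 2 + ‖z.2‖ ^ 2 < δ ^ 2} := by
    refine (closure_minimal hsupp hclosed).trans fun z hz => ?_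
    simp only [mem_ofPred_eq] at hz ⊢
    exact hz.trans_lt hb
  have key := hstat _ ⟨hXc, hcs, hts⟩
  set C := ((volume : Measure (H (p + 1))).toSphere).real univ with hC
  have hCpos : C ≠ 0 := by
    have h1 : (volume : Measure (H (p + 1))).toSphere univ ≠ 0 := by
      rw [Measure.toSphere_apply_univ]
      simp only [ne_eq, mul_eq_zero, Nat.cast_eq_zero, not_or]
      exact ⟨by simp, (Metric.measure_ball_pos _ _ one_pos).ne'⟩
    rw [hC, Measure.real]
    exact (ENNReal.toReal_pos h1 (measure_ne_top _ _)).ne'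
  have hae : ∀ᵐ q ∂(wt p V), sphDiv (volume : Measure (H (p + 1)))
      (fun a => EuclideanSpace.single a 1) (fun z => F z • z) ((V q.1).rad q.2) ((V q.1).ht q.2)
      ((V q.1).cos q.2) ((V q.1).sin q.2) =
      C * ((p + 1) * (φ (sq V q) * w ((V q.1).ht q.2)) +
      2 * (h (sq V q) * (kap V q ^ 2 * w ((V q.1).ht q.2))) +
      φ (sq V q) * (fderiv ℝ w ((V q.1).ht q.2) ((V q.1).sin q.2) * kap V q)) := by
    refine (ae_good p V).mono fun q hq => ?_
    obtain ⟨_, hr, hsp⟩ := hq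
    have hunit := unit_of_ne _ _ hsp
    set r := (V q.1).rad q.2 with hr'
    set y := (V q.1).ht q.2 with hy'
    set c := (V q.1).cos q.2 with hc'
    set s := (V q.1).sin q.2 with hs'
    have hconst : ∀ ω : Metric.sphere (0 : H (p + 1)) 1,
        divT (fun a => (EuclideanSpace.single a 1 : H (p + 1))) (fun z => F z • z)
          (r • (ω : H (p + 1)), y) ω c s = ((p + 1) * (φ (sq V q) * w y) + 2 * (h (sq V q) * (kap V q ^ 2 * w y)) +
          φ (sq V q) * (fderiv ℝ w y s * kap V q)) := by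
      intro ω
      have hω : ‖(ω : H (p + 1))‖ = 1 := by simp
      have hQ : ‖r • (ω : H (p + 1))‖ ^ 2 + ‖y‖ ^ 2 = sq V q := by
        rw [norm_smul, hω, mul_one, Real.norm_eq_abs, sq_abs]; rfl
      have hQ' : HasFDerivAt (fun z : H (p + 1) × H n => ‖z.1‖ ^ 2 + ‖z.2‖ ^ 2)
          ((2 • (innerSL ℝ (r • (ω : H (p + 1))))).comp (ContinuousLinearMap.fst ℝ _ _) +
            (2 • (innerSL ℝ y)).comp (ContinuousLinearMap.snd ℝ _ _)) (r • (ω : H (p + 1)), y) := by
        refine HasFDerivAt.add ?_ ?_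
        · exact HasFDerivAt.comp (g := fun x : H (p + 1) => ‖x‖ ^ 2) (f := Prod.fst)
            (r • (ω : H (p + 1)), y) (hasStrictFDerivAt_norm_sq _).hasFDerivAt hasFDerivAt_fst
        · exact HasFDerivAt.comp (g := fun x : H n => ‖x‖ ^ 2) (f := Prod.snd)
            (r • (ω : H (p + 1)), y) (hasStrictFDerivAt_norm_sq _).hasFDerivAt hasFDerivAt_snd
      have hφ' := (hφ (‖r • (ω : H (p + 1))‖ ^ 2 + ‖y‖ ^ 2)).comp_hasFDerivAt
        (r • (ω : H (p + 1)), y) hQ'
      have hw' : HasFDerivAt (fun z : H (p + 1) × H n => w z.2)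
          ((fderiv ℝ w y).comp (ContinuousLinearMap.snd ℝ _ _)) (r • (ω : H (p + 1)), y) :=
        ((hw.differentiable one_ne_zero y).hasFDerivAt).comp (r • (ω : H (p + 1)), y) hasFDerivAt_snd
      have hF' := hφ'.mul hw'
      rw [divT_smul F _ r ω hω y c s hF']
      simp only [F, add_apply, smul_apply, ContinuousLinearMap.comp_apply,
        ContinuousLinearMap.coe_fst', ContinuousLinearMap.coe_snd', innerSL_apply_apply, smul_eq_mul,
        Function.comp_apply, hQ, hunit, inner_smul_left, inner_smul_right, conj_trivial,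
        real_inner_self_eq_norm_sq, hω, nsmul_eq_mul, Nat.cast_ofNat]
      have hk : kap V q = r * c + ⟪y, s⟫ := rfl
      rw [hk]
      ring
    simp_rw [sphDiv, hconst]
    rw [integral_const, smul_eq_mul]
  rw [integral_congr_ae hae, integral_const_mul] at key
  exact (mul_eq_zero.1 key).resolve_left hCpos

end Pool.Agent.VREV
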