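import Pool.Agent.VREV.Mono

open MeasureTheory Set Filter Topology
open scoped RealInnerProductSpace ENNReal

noncomputable section

namespace Pool.Agent.VREV

variable {Ω : Type} [MeasurableSpace Ω]

lemma tonelli (μ : Measure Ω) [SFinite μ] (u : Ω → ℝ) (hu : Measurable u) (f : ℝ → ℝ≥0∞)
    (hf : Measurable f) :
    ∫⁻ v, f v * μ {q | u q < v} = ∫⁻ q, (∫⁻ v in Ioi (u q), f v) ∂μ := by
  have hs : MeasurableSet {x : Ω × ℝ | u x.1 < x.2} :=
    measurableSet_lt (hu.comp measurable_fst) measurable_snd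
  have hmeas : Measurable (fun x : Ω × ℝ => {x : Ω × ℝ | u x.1 < x.2}.indicator
      (fun x => f x.2) x) := (hf.comp measurable_snd).indicator hs
  have h1 : ∀ q : Ω, ∫⁻ v in Ioi (u q), f v =
      ∫⁻ v, {x : Ω × ℝ | u x.1 < x.2}.indicator (fun x => f x.2) (q, v) := by
    intro q
    rw [← lintegral_indicator measurableSet_Ioi]
    refine lintegral_congr fun v => ?_
    by_cases hv : u q < v <;> simp [hv]
  simp_rw [h1]
  rw [lintegral_lintegral_swap (f := fun q v => {x : Ω × ℝ | u x.1 < x.2}.indicator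
    (fun x => f x.2) (q, v)) hmeas.aemeasurable]
  refine lintegral_congr fun v => ?_
  have hs' : MeasurableSet {q : Ω | u q < v} := measurableSet_lt hu measurable_const
  have : ∀ q : Ω, {x : Ω × ℝ | u x.1 < x.2}.indicator (fun x => f x.2) (q, v) =
      {q : Ω | u q < v}.indicator (fun _ => f v) q := by
    intro q; by_cases hv : u q < v <;> simp [hv]
  simp_rw [this]
  rw [lintegral_indicator_const hs']

lemma slice_cont (μ : Measure Ω) [IsFiniteMeasure μ] (u g : Ω → ℝ) (hu : Measurable u)
    (hg0 : ∀ q, 0 ≤ g q) (hgi : Integrable g μ) {α b : ℝ} (hα : 0 < α)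
    (hS : ∀ h : ℝ → ℝ, Continuous h → (∀ v, v ∉ Icc 0 b → h v = 0) →
      2 * ∫ q, h (u q) * g q ∂μ = α * ∫ q, (∫ v in Ioi (u q), h v) ∂μ)
    (h : ℝ → ℝ) (hc : Continuous h) (h0 : ∀ v, 0 ≤ h v) (hb : ∀ v, v ∉ Icc 0 b → h v = 0) :
    ∫⁻ q, ENNReal.ofReal (h (u q)) * ENNReal.ofReal (2 * g q) ∂μ =
      ∫⁻ v, ENNReal.ofReal (h v) * (ENNReal.ofReal α * μ {q | u q < v}) := by
  have hcs : HasCompactSupport h := by
    refine HasCompactSupport.of_support_subset_isCompact (isCompact_Icc (a := (0:ℝ)) (b := b)) ?_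
    intro v hv; by_contra hv'; exact hv (hb v hv')
  have hint : Integrable h := hc.integrable_of_hasCompactSupport hcs
  obtain ⟨C, hC⟩ := hcs.exists_bound_of_continuous hc
  have hi1 : Integrable (fun q => h (u q) * (2 * g q)) μ := by
    refine (hgi.const_mul 2).bdd_mul (c := C) (hc.measurable.comp hu).aestronglyMeasurable ?_
    exact Eventually.of_forall fun q => hC _
  have hanti : Antitone fun x => ∫ v in Ioi x, h v := by
    intro x y hxy
    exact setIntegral_mono_set hint.integrableOn (Eventually.of_forall h0)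
      (Ioi_subset_Ioi hxy).eventuallyLE
  have hnn : ∀ x, 0 ≤ ∫ v in Ioi x, h v := fun x => integral_nonneg h0
  have hle : ∀ x, ∫ v in Ioi x, h v ≤ ∫ v, h v := fun x =>
    setIntegral_le_integral hint (Eventually.of_forall h0)
  have hi2 : Integrable (fun q => ∫ v in Ioi (u q), h v) μ := by
    refine Integrable.of_bound (C := ∫ v, h v) (hanti.measurable.comp hu).aestronglyMeasurable ?_
    exact Eventually.of_forall fun q => by
      rw [Real.norm_of_nonneg (hnn _)]; exact hle _
  have e1 : ∫⁻ q, ENNReal.ofReal (h (u q)) * ENNReal.ofReal (2 * g q) ∂μ =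
      ENNReal.ofReal (2 * ∫ q, h (u q) * g q ∂μ) := by
    have : 2 * ∫ q, h (u q) * g q ∂μ = ∫ q, h (u q) * (2 * g q) ∂μ := by
      rw [← integral_const_mul]; exact integral_congr_ae (Eventually.of_forall fun q => by ring)
    rw [this, ofReal_integral_eq_lintegral_ofReal hi1
      (Eventually.of_forall fun q => mul_nonneg (h0 _) (mul_nonneg (by norm_num) (hg0 _)))]
    exact lintegral_congr fun q => (ENNReal.ofReal_mul (h0 _)).symm
  rw [e1, hS h hc hb]
  have e2 : ∀ v, ENNReal.ofReal (h v) * (ENNReal.ofReal α * μ {q | u q < v}) =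
      ENNReal.ofReal α * (ENNReal.ofReal (h v) * μ {q | u q < v}) := fun v => by ring
  simp_rw [e2]
  have hmm : Measurable fun v : ℝ => μ {q | u q < v} := by
    have : Monotone fun v : ℝ => μ {q | u q < v} := fun v w hvw =>
      measure_mono fun q (hq : u q < v) => lt_of_lt_of_le hq hvw
    exact this.measurable
  have hm2 : Measurable fun v => ENNReal.ofReal (h v) :=
    ENNReal.measurable_ofReal.comp hc.measurable
  have hm3 : Measurable fun v => ENNReal.ofReal (h v) * μ {q | u q < v} := hm2.mul hmm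
  rw [lintegral_const_mul _ hm3, tonelli μ u hu _ hm2, ENNReal.ofReal_mul hα.le,
    ofReal_integral_eq_lintegral_ofReal hi2 (Eventually.of_forall fun q => hnn _)]
  congr 1
  refine lintegral_congr fun q => ?_
  rw [ofReal_integral_eq_lintegral_ofReal hint.integrableOn (Eventually.of_forall fun v => h0 v)]

/-- the bump functions increasing to the indicator of an interval -/
def hat (a b : ℝ) (k : ℕ) (v : ℝ) : ℝ := min 1 (k * max 0 (min (v - a) (b - v)))

lemma hat_cont (a b : ℝ) (k : ℕ) : Continuous (hat a b k) := by unfold hat; fun_prop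

lemma hat_nonneg (a b : ℝ) (k : ℕ) (v : ℝ) : 0 ≤ hat a b k v :=
  le_min zero_le_one (mul_nonneg (Nat.cast_nonneg _) (le_max_left _ _))

lemma hat_zero {a b : ℝ} (k : ℕ) {v : ℝ} (hv : v ∉ Ioo a b) : hat a b k v = 0 := by
  have : min (v - a) (b - v) ≤ 0 := by
    by_contra h
    rw [not_le, lt_min_iff] at h
    exact hv ⟨by linarith [h.1], by linarith [h.2]⟩
  rw [hat, max_eq_left this]; simp

lemma hat_mono (a b v : ℝ) : Monotone fun k => ENNReal.ofReal (hat a b k v) := by
  intro k l hkl
  refine ENNReal.ofReal_le_ofReal (min_le_min le_rfl ?_)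
  exact mul_le_mul_of_nonneg_right (by exact_mod_cast hkl) (le_max_left _ _)

lemma hat_iSup (a b v : ℝ) : ⨆ k : ℕ, ENNReal.ofReal (hat a b k v) = (Ioo a b).indicator 1 v := by
  by_cases hv : v ∈ Ioo a b
  · rw [indicator_of_mem hv, Pi.one_apply]
    have hpos : 0 < max 0 (min (v - a) (b - v)) :=
      lt_max_of_lt_right (lt_min (by linarith [hv.1]) (by linarith [hv.2]))
    obtain ⟨k, hk⟩ := exists_nat_ge (1 / max 0 (min (v - a) (b - v)))
    refine le_antisymm (iSup_le fun k => ?_) (le_iSup_of_le k ?_)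
    · exact ENNReal.ofReal_le_one.2 (min_le_left _ _)
    · rw [hat, min_eq_left, ENNReal.ofReal_one]
      rw [div_le_iff₀ hpos] at hk; exact hk
  · rw [indicator_of_notMem hv]
    simp [hat_zero _ hv]

lemma slice_eq (μ : Measure Ω) [IsFiniteMeasure μ] (u g : Ω → ℝ) (hu : Measurable u)
    (hgm : Measurable g) (hg0 : ∀ q, 0 ≤ g q) (hgi : Integrable g μ) {α b : ℝ} (hα : 0 < α)
    (hS : ∀ h : ℝ → ℝ, Continuous h → (∀ v, v ∉ Icc 0 b → h v = 0) →
      2 * ∫ q, h (u q) * g q ∂μ = α * ∫ q, (∫ v in Ioi (u q), h v) ∂μ)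
    (F : ℝ → ℝ≥0∞) (hF : Measurable F) :
    ∫⁻ q in {q | u q ∈ Ioo 0 b}, F (u q) * ENNReal.ofReal (2 * g q) ∂μ =
      ∫⁻ v in Ioo 0 b, F v * (ENNReal.ofReal α * μ {q | u q < v}) := by
  have hmm : Measurable fun v : ℝ => μ {q | u q < v} := by
    have : Monotone fun v : ℝ => μ {q | u q < v} := fun v w hvw =>
      measure_mono fun q (hq : u q < v) => lt_of_lt_of_le hq hvw
    exact this.measurable
  have hw1 : Measurable fun q => ENNReal.ofReal (2 * g q) :=
    ENNReal.measurable_ofReal.comp (hgm.const_mul 2)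
  have hw2 : Measurable fun v => ENNReal.ofReal α * μ {q | u q < v} := hmm.const_mul _
  set P1 : Measure ℝ := ((μ.withDensity fun q => ENNReal.ofReal (2 * g q)).map u).restrict (Ioo 0 b)
    with hP1
  set P2 : Measure ℝ := (volume.withDensity fun v => ENNReal.ofReal α * μ {q | u q < v}).restrict
    (Ioo 0 b) with hP2
  have hfin : IsFiniteMeasure (μ.withDensity fun q => ENNReal.ofReal (2 * g q)) :=
    isFiniteMeasure_withDensity_ofReal (hgi.const_mul 2).2
  have hP : P1 = P2 := by
    refine Real.measure_ext_Ioo_rat fun a' b' => ?_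
    rw [hP1, hP2, Measure.restrict_apply measurableSet_Ioo, Measure.restrict_apply
      measurableSet_Ioo, Ioo_inter_Ioo, Measure.map_apply hu measurableSet_Ioo,
      withDensity_apply _ (hu measurableSet_Ioo), withDensity_apply _ measurableSet_Ioo]
    set a := max (a' : ℝ) 0
    set c := min (b' : ℝ) b
    have key := fun k : ℕ => slice_cont μ u g hu hg0 hgi hα hS (hat a c k) (hat_cont _ _ _)
      (hat_nonneg _ _ _) (fun v hv => hat_zero k fun h => hv
        ⟨(le_max_right _ _).trans h.1.le, h.2.le.trans (min_le_right _ _)⟩)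
    have L1 : ∫⁻ q in u ⁻¹' Ioo a c, ENNReal.ofReal (2 * g q) ∂μ =
        ⨆ k : ℕ, ∫⁻ q, ENNReal.ofReal (hat a c k (u q)) * ENNReal.ofReal (2 * g q) ∂μ := by
      rw [← lintegral_iSup]
      · rw [← lintegral_indicator (hu measurableSet_Ioo)]
        refine lintegral_congr fun q => ?_
        rw [← ENNReal.iSup_mul, hat_iSup]
        by_cases hq : u q ∈ Ioo a c
        · rw [indicator_of_mem (show q ∈ u ⁻¹' Ioo a c from hq), indicator_of_mem hq]; simp
        · rw [indicator_of_notMem (show q ∉ u ⁻¹' Ioo a c from hq), indicator_of_notMem hq]; simp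
      · exact fun k => (ENNReal.measurable_ofReal.comp ((hat_cont _ _ _).measurable.comp hu)).mul hw1
      · exact fun k l hkl q => mul_le_mul_left (hat_mono a c (u q) hkl) _
    have L2 : ∫⁻ v in Ioo a c, ENNReal.ofReal α * μ {q | u q < v} =
        ⨆ k : ℕ, ∫⁻ v, ENNReal.ofReal (hat a c k v) * (ENNReal.ofReal α * μ {q | u q < v}) := by
      rw [← lintegral_iSup]
      · rw [← lintegral_indicator measurableSet_Ioo]
        refine lintegral_congr fun v => ?_
        rw [← ENNReal.iSup_mul, hat_iSup]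
        by_cases hq : v ∈ Ioo a c
        · rw [indicator_of_mem hq, indicator_of_mem hq]; simp
        · rw [indicator_of_notMem hq, indicator_of_notMem hq]; simp
      · exact fun k => (ENNReal.measurable_ofReal.comp (hat_cont _ _ _).measurable).mul hw2
      · exact fun k l hkl v => mul_le_mul_left (hat_mono a c v hkl) _
    rw [L1, L2]
    exact iSup_congr key
  have e1 : ∫⁻ v, F v ∂P1 = ∫⁻ q in {q | u q ∈ Ioo 0 b}, F (u q) * ENNReal.ofReal (2 * g q) ∂μ := by
    rw [hP1, Measure.restrict_map hu measurableSet_Ioo, lintegral_map hF hu,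
      restrict_withDensity (hu measurableSet_Ioo),
      lintegral_withDensity_eq_lintegral_mul _ hw1 (show Measurable fun q => F (u q) from
        hF.comp hu)]
    refine lintegral_congr fun q => ?_
    simp [mul_comm]
  have e2 : ∫⁻ v, F v ∂P2 = ∫⁻ v in Ioo 0 b, F v * (ENNReal.ofReal α * μ {q | u q < v}) := by
    rw [hP2, restrict_withDensity measurableSet_Ioo,
      lintegral_withDensity_eq_lintegral_mul _ hw2 hF]
    refine lintegral_congr fun v => ?_
    simp [mul_comm]
  rw [← e1, ← e2, hP]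

end Pool.Agent.VREV
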