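import Pool.Agent.VREV.Radial

open MeasureTheory Set Filter Topology
open scoped RealInnerProductSpace ENNReal

noncomputable section

namespace Pool.Agent.VREV

variable {n : ℕ}

lemma stat_S (p : ℕ) (V : ℕ → Piece n) {δ c b τ Cw : ℝ} (hcδ : c ≤ δ ^ 2) (hb : b < c)
    (hstat : StationaryIn p V δ) (hfin : wt p V {q | sq V q < c} ≠ ∞) (w : H n → ℝ)
    (hw : ContDiff ℝ 1 w) (hw0 : ∀ y, 0 ≤ w y)
    (hwb : ∀ q, sq V q < c → w ((V q.1).ht q.2) ≤ Cw)
    (hτ : ∀ᵐ q ∂(wt p V), sq V q < c →
      fderiv ℝ w ((V q.1).ht q.2) ((V q.1).sin q.2) * kap V q = τ * w ((V q.1).ht q.2))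
    (h : ℝ → ℝ) (hc : Continuous h) (hsup : ∀ v, v ∉ Icc 0 b → h v = 0) :
    2 * ∫ q in {q | sq V q < c}, h (sq V q) * (kap V q ^ 2 * w ((V q.1).ht q.2)) ∂(wt p V) =
      (p + 1 + τ) * ∫ q in {q | sq V q < c},
        (∫ v in Ioi (sq V q), h v) * w ((V q.1).ht q.2) ∂(wt p V) := by
  have hcs : HasCompactSupport h := by
    refine HasCompactSupport.of_support_subset_isCompact (isCompact_Icc (a := (0:ℝ)) (b := b)) ?_
    intro v hv; by_contra hv'; exact hv (hsup v hv')
  have hint : Integrable h := hc.integrable_of_hasCompactSupport hcs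
  obtain ⟨C, hC⟩ := hcs.exists_bound_of_continuous hc
  have hI0 : ∀ x, b ≤ x → ∫ v in Ioi x, h v = 0 := by
    intro x hx
    refine setIntegral_eq_zero_of_forall_eq_zero fun v hv => hsup v fun hv' => ?_
    exact absurd hv'.2 (not_le.2 (hx.trans_lt hv))
  have hφI : ∀ x, ∫ v in b..x, h v = -∫ v in Ioi x, h v := by
    intro x
    have := intervalIntegral.integral_interval_add_Ioi (f := h) (μ := volume) (a := x) (b := b)
      hint.integrableOn hint.integrableOn
    rw [hI0 b le_rfl, add_zero] at this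
    rw [← this, intervalIntegral.integral_symm]
  have key := stat_weight p V (hb.trans_le hcδ) hstat w hw (fun x => ∫ v in b..x, h v) h hc
    (fun v => (hc.integral_hasStrictDerivAt b v).hasDerivAt)
    (fun v hv => by rw [hφI, hI0 v hv, neg_zero])
  simp only [hφI] at key
  have hms : MeasurableSet {q | sq V q < c} := measurableSet_lt (meas_sq V) measurable_const
  rw [← setIntegral_eq_integral_of_forall_compl_eq_zero (s := {q | sq V q < c})] at key
  swap
  · intro q hq
    simp only [mem_ofPred_eq, not_lt] at hq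
    have h1 : h (sq V q) = 0 := hsup _ fun h' => absurd h'.2 (not_le.2 (hb.trans_le hq))
    rw [hI0 _ (hb.le.trans hq), h1]; ring
  have : IsFiniteMeasure ((wt p V).restrict {q | sq V q < c}) :=
    ⟨by rw [Measure.restrict_apply_univ]; exact hfin.lt_top⟩
  have hwm : Measurable fun q : ℕ × ℝ => w ((V q.1).ht q.2) := hw.continuous.measurable.comp (meas_ht V)
  have hJc : Continuous fun x => ∫ v in Ioi x, h v := by
    have : (fun x => ∫ v in Ioi x, h v) = fun x => -∫ v in b..x, h v := by
      ext x; rw [hφI]; ring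
    rw [this]
    exact (continuous_iff_continuousAt.2 fun v =>
      (hc.integral_hasStrictDerivAt b v).hasDerivAt.continuousAt).neg
  have hJb : ∀ x, |∫ v in Ioi x, h v| ≤ ∫ v, |h v| := fun x =>
    (abs_integral_le_integral_abs).trans
      (setIntegral_le_integral hint.abs (Eventually.of_forall fun v => abs_nonneg _))
  have hC0 : 0 ≤ C := (norm_nonneg _).trans (hC 0)
  have hi1 : Integrable (fun q => (∫ v in Ioi (sq V q), h v) * w ((V q.1).ht q.2))
      ((wt p V).restrict {q | sq V q < c}) := by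
    refine Integrable.of_bound (C := (∫ v, |h v|) * Cw)
      ((hJc.measurable.comp (meas_sq V)).mul hwm).aestronglyMeasurable ?_
    filter_upwards [ae_restrict_mem hms] with q hq
    rw [norm_mul, Real.norm_eq_abs, Real.norm_of_nonneg (hw0 _)]
    exact mul_le_mul (hJb _) (hwb q hq) (hw0 _) (integral_nonneg fun v => abs_nonneg _)
  have hi2 : Integrable (fun q => h (sq V q) * (kap V q ^ 2 * w ((V q.1).ht q.2)))
      ((wt p V).restrict {q | sq V q < c}) := by
    refine Integrable.of_bound (C := C * (c * Cw)) ((hc.measurable.comp (meas_sq V)).mul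
      (((meas_kap V).pow_const 2).mul hwm)).aestronglyMeasurable ?_
    filter_upwards [ae_restrict_mem hms] with q hq
    rw [norm_mul, norm_mul, Real.norm_of_nonneg (hw0 _), Real.norm_of_nonneg (_root_.sq_nonneg _)]
    have h1 : kap V q ^ 2 ≤ c := (kap_sq_le V q).trans (le_of_lt hq)
    exact mul_le_mul (hC _) (mul_le_mul h1 (hwb q hq) (hw0 _) ((_root_.sq_nonneg _).trans h1))
      (mul_nonneg (_root_.sq_nonneg _) (hw0 _)) hC0
  have hae : ∀ᵐ q ∂((wt p V).restrict {q | sq V q < c}),
      ((p : ℝ) + 1) * ((-∫ v in Ioi (sq V q), h v) * w ((V q.1).ht q.2)) +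
      2 * (h (sq V q) * (kap V q ^ 2 * w ((V q.1).ht q.2))) +
      (-∫ v in Ioi (sq V q), h v) *
        (fderiv ℝ w ((V q.1).ht q.2) ((V q.1).sin q.2) * kap V q) =
      2 * (h (sq V q) * (kap V q ^ 2 * w ((V q.1).ht q.2))) -
        (p + 1 + τ) * ((∫ v in Ioi (sq V q), h v) * w ((V q.1).ht q.2)) := by
    filter_upwards [ae_restrict_mem hms, ae_restrict_of_ae hτ] with q hq hq2
    rw [hq2 hq]; ring
  rw [integral_congr_ae hae, integral_sub (hi2.const_mul 2) (hi1.const_mul _), integral_const_mul,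
    integral_const_mul] at key
  linarith

end Pool.Agent.VREV
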